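import Pool.Agent.P.MP_509d99_co.Tile

set_option autoImplicit false

namespace Pool.Agent.P.MP_509d99_co

def rv {α : Type} (b : Bool) (X : List α) : List α := bif b then X.reverse else X

theorem ps_reverse {α : Type} [AddCommMonoid α] (l : List α) :
    (ps l.reverse : Multiset α) = (ps l : Multiset α) := by
  induction l with
  | nil => rfl
  | cons a l ih =>
    cases l with
    | nil => rfl
    | cons b l =>
      rw [List.reverse_cons, List.reverse_cons, List.append_assoc, List.singleton_append, ps_append,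
        ← List.reverse_cons, ← Multiset.coe_add, ih]
      simp only [ps, add_comm b a]
      rw [add_comm]; rfl

theorem rv_coe {α : Type} (b : Bool) (X : List α) : (rv b X : Multiset α) = (X : Multiset α) := by
  cases b
  · rfl
  · exact Multiset.coe_reverse X

theorem rv_ps {α : Type} [AddCommMonoid α] (b : Bool) (X : List α) :
    (ps (rv b X) : Multiset α) = (ps X : Multiset α) := by
  cases b
  · rfl
  · exact ps_reverse X

theorem rv_len {α : Type} (b : Bool) (X : List α) : (rv b X).length = X.length := by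
  cases b <;> simp [rv]

theorem rv_en {R : Type} [CommRing R] (b : Bool) (X : List R) (s : R) (L z1 z2 : ℕ)
    (h : En X (s + ((L + bif b then z2 else z1 : ℕ) : R)) (s + ((L + bif b then z1 else z2 : ℕ) : R))) :
    En (rv b X) (s + L + z1) (s + L + z2) := by
  cases b
  · simpa [rv, add_assoc] using h
  · simpa [rv, add_assoc, En, and_comm] using h

/-- A number that determines a short multiset of naturals. -/
def pw : List ℕ → ℕ
  | [] => 0
  | x :: l => 64 ^ x + pw l

theorem pw_spec (x : ℕ) (l : List ℕ) :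
    ∃ lo hi, pw l = lo + 64 ^ x * (l.count x + 64 * hi) ∧ 64 * lo ≤ l.length * 64 ^ x := by
  induction l with
  | nil => exact ⟨0, 0, by simp [pw], by simp⟩
  | cons y l ih =>
    obtain ⟨lo, hi, e, h⟩ := ih
    rcases lt_trichotomy y x with hy | rfl | hy
    · refine ⟨lo + 64 ^ y, hi, ?_, ?_⟩
      · rw [pw, e, List.count_cons_of_ne hy.ne]; ring
      · have : 64 ^ (y + 1) ≤ 64 ^ x := Nat.pow_le_pow_right (by norm_num) hy
        rw [List.length_cons]; rw [pow_succ] at this; nlinarith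
    · refine ⟨lo, hi, ?_, ?_⟩
      · rw [pw, e, List.count_cons_self]; ring
      · rw [List.length_cons]; nlinarith [Nat.zero_le (64 ^ y)]
    · obtain ⟨d, rfl⟩ := Nat.exists_eq_add_of_lt hy
      refine ⟨lo, hi + 64 ^ d, ?_, ?_⟩
      · rw [pw, e, List.count_cons_of_ne hy.ne']; ring
      · rw [List.length_cons]; nlinarith [Nat.zero_le (64 ^ x)]

theorem pw_count (x : ℕ) (l : List ℕ) (h : l.length < 64) : pw l / 64 ^ x % 64 = l.count x := by
  obtain ⟨lo, hi, e, h1⟩ := pw_spec x l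
  have hp : 0 < 64 ^ x := by positivity
  have h2 : lo < 64 ^ x := by nlinarith
  have h3 : l.count x < 64 := lt_of_le_of_lt List.count_le_length h
  rw [e, Nat.add_mul_div_left _ _ hp, Nat.div_eq_of_lt h2]
  omega

def pm (l m : List ℕ) : Bool := Nat.ble l.length 63 && Nat.ble m.length 63 && Nat.beq (pw l) (pw m)

theorem pm_perm {l m : List ℕ} (h : pm l m = true) : l.Perm m := by
  simp only [pm, Bool.and_eq_true, Nat.ble_eq, Nat.beq_eq] at h
  refine List.perm_iff_count.2 fun x => ?_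
  rw [← pw_count x l (by omega), ← pw_count x m (by omega), h.2]

def Pat.sw (o : Bool) (b : Pat) : Pat :=
  bif o then ⟨b.y1, b.y2, b.x1, b.x2, b.eb, b.ea, b.ho, b.ex⟩ else b

def sw {α : Type} (o : Bool) (p : α × α) : α × α := bif o then (p.2, p.1) else p

def sy (w : List Bool) : ((ℕ × ℕ) × (ℕ × ℕ)) × List (ℕ × ℕ) :=
  nom (0, 5) (fun p => (p.1, p.2 + 1)) w (1, 4) (2, 4)

/-- The validity check of one tile. -/
def okT (a b : Pat) (w : List Bool) (L : ℕ) (ax ay : Act) (rx ry o : Bool) (inn : List (List ℕ)) : Bool :=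
  Nat.beq w.length L &&
  (ax.hd a.x1 == some (L + bif rx then (b.sw o).x2 else (b.sw o).x1)) &&
  (ax.lst a.x2 == some (L + bif rx then (b.sw o).x1 else (b.sw o).x2)) &&
  (ay.hd a.y1 == some (L + bif ry then (b.sw o).y2 else (b.sw o).y1)) &&
  (ay.lst a.y2 == some (L + bif ry then (b.sw o).y1 else (b.sw o).y2)) &&
  pm ((ax.l ++ ax.r) ++ (ay.l ++ ay.r) ++ inn.flatten ++ a.ex ++ b.ho.map (L + ·))
    (List.range' 16 L ++ b.ex.map (L + ·) ++ a.ho) &&
  pm (ax.sums a.x1 a.x2 ++ ay.sums a.y1 a.y2 ++ inn.flatMap cs) (List.range' 32 L 2) &&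
  Nat.beq (sw o (sy w).1).1.1 (ax.sym 1 a.ea).1 &&
  Nat.beq ((sw o (sy w).1).1.2 + (b.sw o).ea) ((ax.sym 1 a.ea).2 + 4) &&
  Nat.beq (sw o (sy w).1).2.1 (ay.sym 2 a.eb).1 &&
  Nat.beq ((sw o (sy w).1).2.2 + (b.sw o).eb) ((ay.sym 2 a.eb).2 + 4) &&
  (sy w).2.isPerm (ax.em 1 a.ea ++ ay.em 2 a.eb ++ inn.map fun z => (0, z.length + 4))

section sem

variable {R : Type} [CommRing R]

theorem sh_perm (s : R) {l m : List ℕ} (h : l.Perm m) : (sh s l : Multiset R) = (sh s m : Multiset R) :=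
  Multiset.coe_eq_coe.2 (h.map _)

theorem good_tile {a b : Pat} {w : List Bool} {L : ℕ} {ax ay : Act} {rx ry o : Bool}
    {inn : List (List ℕ)} (h : okT a b w L ax ay rx ry o inn = true) : Good R a w b := by
  simp only [okT, Bool.and_eq_true, Nat.beq_eq, beq_iff_eq, List.isPerm_iff] at h
  obtain ⟨⟨⟨⟨⟨⟨⟨⟨⟨⟨⟨rfl, h1⟩, h2⟩, h3⟩, h4⟩, hv⟩, hs⟩, t1⟩, c1⟩, t2⟩, c2⟩, he⟩ := h
  refine ⟨fun s p => (sw o (rv rx (app s ax p.1).1, rv ry (app s ay p.2).1),
    (app s ax p.1).2 ++ (app s ay p.2).2 ++ inn.map (sh s)), fun s p e1 e2 => ?_, fun s p p' f h => ?_⟩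
  · have F1 := rv_en rx _ s _ _ _ (app_ends s ax p.1 _ _ _ _ e1 h1 h2)
    have F2 := rv_en ry _ s _ _ _ (app_ends s ay p.2 _ _ _ _ e2 h3 h4)
    have v1 := app_verts s ax p.1
    have v2 := app_verts s ay p.2
    have v3 := sh_perm s (pm_perm hv)
    have s1 := app_sums s ax p.1 _ _ e1
    have s2 := app_sums s ay p.2 _ _ e2
    have s3 := sh_perm (s + s) (pm_perm hs)
    have i1 : (inn.map (sh s)).flatten = sh s inn.flatten := by
      simp only [sh, List.map_flatten]; rfl
    have i2 : (inn.map (sh s)).flatMap cs = sh (s + s) (inn.flatMap cs) := by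
      simp only [List.flatMap_map, cs_sh]; simp only [sh, List.map_flatMap]
    set i : ℤ := p.1.length + 4 - a.ea with hi
    set j : ℤ := p.2.length + 4 - a.eb with hj
    have l1 := app_len s ax p.1 i j 1 a.ea (by simp [ev, hi])
    have l2 := app_len s ay p.2 i j 2 a.eb (by simp [ev, hj])
    have n := nom_map (0, 5) (fun p : ℕ × ℕ => (p.1, p.2 + 1)) (1 : ℤ) (· + 1) (ev i j)
      (by simp [ev]) (by intro p; simp [ev]; ring) w (1, 4) (2, 4)
    rw [show ev i j (1, 4) = i by simp [ev], show ev i j (2, 4) = j by simp [ev]] at n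
    have F3 : ((rv rx (app s ax p.1).1 : Multiset R) + (rv ry (app s ay p.2).1 : Multiset R)
        + (((app s ax p.1).2 ++ (app s ay p.2).2 ++ inn.map (sh s)).flatten : Multiset R)
        + (sh s a.ex : Multiset R) + (sh (s + w.length) b.ho : Multiset R)
        = (p.1 : Multiset R) + (p.2 : Multiset R) + (sh s (List.range' 16 w.length) : Multiset R)
          + (sh (s + w.length) b.ex : Multiset R) + (sh s a.ho : Multiset R)) := by
      simp only [rv_coe, List.flatten_append, i1, sh_add, sh_append, ← Multiset.coe_add] at v1 v2 v3 ⊢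
      linear_combination (norm := abel) v1 + v2 + v3
    have F4 : ((ps (rv rx (app s ax p.1).1) : Multiset R) + (ps (rv ry (app s ay p.2).1) : Multiset R)
        + (((app s ax p.1).2 ++ (app s ay p.2).2 ++ inn.map (sh s)).flatMap cs : Multiset R)
        = (ps p.1 : Multiset R) + (ps p.2 : Multiset R)
          + (sh (s + s) (List.range' 32 w.length 2) : Multiset R)) := by
      simp only [rv_ps, List.flatMap_append, i2, sh_append, ← Multiset.coe_add] at s1 s2 s3 ⊢
      linear_combination (norm := abel) s1 + s2 + s3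
    have F5 : ev i j (sw o (sy w).1).1 = (rv rx (app s ax p.1).1).length + 4 - (b.sw o).ea := by
      rw [rv_len, l1.1]; simp only [ev, t1]; omega
    have F6 : ev i j (sw o (sy w).1).2 = (rv ry (app s ay p.2).1).length + 4 - (b.sw o).eb := by
      rw [rv_len, l2.1]; simp only [ev, t2]; omega
    have F7 : ((nz w (i, j)).2 : Multiset ℤ) = ((((app s ax p.1).2 ++ (app s ay p.2).2
        ++ inn.map (sh s)).map (fun z => (z.length : ℤ)) : List ℤ) : Multiset ℤ) := by
      simp only [nz, n, List.map_append, l1.2, l2.2]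
      refine Multiset.coe_eq_coe.2 ((he.map (ev i j)).trans (List.Perm.of_eq ?_))
      simp [ev, sh, Function.comp_def]
    have F8 : (nz w (i, j)).1 = (ev i j (sy w).1.1, ev i j (sy w).1.2) := by simp only [nz, n, sy]
    cases o
    · exact ⟨F1, F2, F3, F4, by rw [F8]; exact Prod.ext F5 F6, F7⟩
    · refine ⟨F2, F1, ?_, ?_, by rw [F8]; exact Prod.ext F6 F5, F7⟩
      · rw [← F3]; simp only [sw, cond_true]; abel
      · rw [← F4]; simp only [sw, cond_true]; abel
  · have n := nom_map (0, 5) (fun p : ℕ × ℕ => (p.1, p.2 + 1)) true id (fv f)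
      (by simp [fv]) (by intro p; simp [fv]) w (1, 4) (2, 4)
    rw [show fv f (1, 4) = f.1 by simp [fv], show fv f (2, 4) = f.2 by simp [fv]] at n
    have e : fl w f = (fv f (sy w).1.1, fv f (sy w).1.2) := by simp only [fl, n, sy]
    have A1 : fv f (sw o (sy w).1).1 = true → (app s ax p.1).1 = (app s ax p'.1).1 := fun k =>
      app_ag s ax _ _ f 1 a.ea (by simpa [fv] using h.1) (by simpa only [fv, t1] using k)
    have A2 : fv f (sw o (sy w).1).2 = true → (app s ay p.2).1 = (app s ay p'.2).1 := fun k =>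
      app_ag s ay _ _ f 2 a.eb (by simpa [fv] using h.2) (by simpa only [fv, t2] using k)
    rw [e]
    cases o
    · exact ⟨fun k => congrArg (rv rx) (A1 k), fun k => congrArg (rv ry) (A2 k)⟩
    · exact ⟨fun k => congrArg (rv ry) (A2 k), fun k => congrArg (rv rx) (A1 k)⟩

end sem

/-- Cycles with the given lengths, distinct labels and distinct edge sums. -/
def HL (q : ℕ) (N : List ℕ) : Prop :=
  ∃ C : List (List (ZMod q)), (C.map List.length).Perm N ∧ C.flatten.Nodup ∧ (C.flatMap cs).Nodup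

theorem nodup_sh (q b t : ℕ) (ht : Nat.Coprime q t) (h0 : 0 < t) (s : ZMod q) :
    (sh s (List.range' b q t)).Nodup := by
  refine List.Nodup.map_on (fun x hx y hy e => ?_) (List.nodup_range' t h0)
  obtain ⟨i, hi, rfl⟩ := List.mem_range'.1 hx
  obtain ⟨j, hj, rfl⟩ := List.mem_range'.1 hy
  have e1 : b + t * i ≡ b + t * j [MOD q] := (ZMod.natCast_eq_natCast_iff _ _ _).1 (add_left_cancel e)
  have e2 : i ≡ j [MOD q] := Nat.ModEq.cancel_left_of_coprime ht (Nat.ModEq.add_left_cancel' b e1)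
  rw [Nat.ModEq.eq_of_lt_of_lt e2 hi hj]

theorem closed {q : ℕ} (hq : q % 2 = 1) {w : List Bool} (hw : w.length = q) (h1 : true ∈ w) {a : Pat}
    (g : Good (ZMod q) a w a) {c : ℤ × ℤ} (hc : (nz w c).1 = c) {N : List ℕ}
    (hN : ((nz w c).2 : Multiset ℤ) = (N.map (fun n : ℕ => (n : ℤ)) : List ℤ)) : HL q N := by
  obtain ⟨G, hG, hA⟩ := g
  have z : (0 : ZMod q) + (w.length : ZMod q) = 0 := by rw [hw]; simp
  let p0 : List (ZMod q) × List (ZMod q) := ([0 + a.x1, 0 + a.x2], [0 + a.y1, 0 + a.y2])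
  obtain ⟨a1, a2, -⟩ := hG 0 p0 ⟨rfl, rfl⟩ ⟨rfl, rfl⟩
  rw [z] at a1 a2
  obtain ⟨b1, b2, -⟩ := hG 0 _ a1 a2
  rw [z] at b1 b2
  obtain ⟨-, -, c3, c4, c5, c6⟩ := hG 0 _ b1 b2
  have f2 := fl_twice w h1 (hw ▸ hq) (false, false)
  have ag := hA 0 _ _ _ (hA 0 p0 (G 0 p0).1 (false, false) ⟨by simp, by simp⟩)
  rw [f2] at ag
  set p := (G 0 (G 0 p0).1).1
  have e : (G 0 p).1 = p := (Prod.ext (ag.1 rfl) (ag.2 rfl)).symm
  rw [e] at c3 c4 c5
  rw [z] at c3
  have ag2 := ag_nz w _ _ _ (ag_nz w (false, false) c (p.1.length + 4 - a.ea, p.2.length + 4 - a.eb)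
    ⟨by simp, by simp⟩)
  rw [f2, hc, hc, c5, c5] at ag2
  rw [← Prod.ext (ag2.1 rfl) (ag2.2 rfl), hN] at c6
  refine ⟨(G 0 p).2, ?_, ?_, ?_⟩
  · have := (Multiset.coe_eq_coe.1 c6).map Int.toNat
    simpa [Function.comp_def] using this.symm
  · have : (((G 0 p).2.flatten : List _) : Multiset (ZMod q))
        = (sh (0 : ZMod q) (List.range' 16 w.length) : List (ZMod q)) := by
      refine add_right_cancel (b := (p.1 : Multiset (ZMod q)) + (p.2 : Multiset (ZMod q))
        + (sh (0 : ZMod q) a.ex : List (ZMod q)) + (sh (0 : ZMod q) a.ho : List (ZMod q))) ?_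
      linear_combination (norm := abel) c3
    rw [(Multiset.coe_eq_coe.1 this).nodup_iff, hw]
    exact nodup_sh q 16 1 (Nat.coprime_one_right q) one_pos 0
  · rw [(Multiset.coe_eq_coe.1 (add_left_cancel c4)).nodup_iff, hw]
    exact nodup_sh q 32 2 ((Nat.coprime_two_right).2 (Nat.odd_iff.2 hq)) two_pos _

theorem closed_rot {q : ℕ} (hq : q % 2 = 1) {v u : List Bool} (hw : (v ++ u).length = q)
    (h1 : true ∈ v ++ u) {a : Pat} (g : Good (ZMod q) a (u ++ v) a) {c : ℤ × ℤ}
    (hc : (nz (v ++ u) c).1 = c) {N : List ℕ}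
    (hN : ((nz (v ++ u) c).2 : Multiset ℤ) = (N.map (fun n : ℕ => (n : ℤ)) : List ℤ)) : HL q N := by
  simp only [nz, nom_append] at hc hN
  refine closed hq (by simpa [add_comm] using hw) (by simpa [or_comm] using h1) g (c := (nz v c).1) ?_ ?_
  · simp only [nz, nom_append, hc]
  · simp only [nz, nom_append, hc, ← hN, ← Multiset.coe_add, add_comm]

end Pool.Agent.P.MP_509d99_co
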