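import Pool.Agent.P.MP_509d99_co.DataP
import Pool.Agent.P.MP_509d99_co.DataS

set_option autoImplicit false

namespace Pool.Agent.P.MP_509d99_co

theorem okS0 : sT0.all (okS tT sT cF tg) = true := by decide +kernel

theorem okS1 : sT1.all (okS tT sT cF tg) = true := by decide +kernel

theorem okS2 : sT2.all (okS tT sT cF tg) = true := by decide +kernel

theorem okS3 : sT3.all (okS tT sT cF tg) = true := by decide +kernel

theorem okCs : (tg.all fun t => okC tT sT t (cF t)) = true := by decide +kernel

end Pool.Agent.P.MP_509d99_co
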