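import Pool.Agent.P.MP_509d99_co.DataP
import Pool.Agent.P.MP_509d99_co.DataS

set_option autoImplicit false

namespace Pool.Agent.P.MP_509d99_co

theorem okS4 : sT4.all (okS tT sT cF tg) = true := by decide +kernel

theorem okS5 : sT5.all (okS tT sT cF tg) = true := by decide +kernel

theorem okS6 : sT6.all (okS tT sT cF tg) = true := by decide +kernel

theorem okS7 : sT7.all (okS tT sT cF tg) = true := by decide +kernel

theorem okVs : okV cF tg = true := by decide +kernel

end Pool.Agent.P.MP_509d99_co
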