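import Pool.Agent.P.MP_509d99_co.Dfa

set_option autoImplicit false

namespace Pool.Agent.P.MP_509d99_co

/-- Splits the digits of a number into lists. -/
noncomputable def spl (f : ℕ) : ℕ → List ℕ → List (List ℕ) → List (List ℕ) :=
  Nat.rec (motive := fun _ => ℕ → List ℕ → List (List ℕ) → List (List ℕ)) (fun _ c a => c :: a)
    (fun _ g n c a => bif Nat.beq n 0 then c :: a else frc (Nat.mod n 64) fun d =>
      frc (Nat.div n 64) fun n' => bif Nat.beq d 63 then g n' [] (c :: a) else g n' (d :: c) a) f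

noncomputable def decP (n : ℕ) : Pat :=
  match spl 40 n [] [] with
  | [[x1, x2, y1, y2, ea, eb], ho, ex] => ⟨x1, x2, y1, y2, ea, eb, ho, ex⟩
  | _ => ⟨0, 0, 0, 0, 0, 0, [], []⟩

noncomputable def frP (p : Pat) (k : Pat → Bool) : Bool :=
  Pat.rec (fun x1 x2 y1 y2 ea eb ho ex => k ⟨x1, x2, y1, y2, ea, eb, ho, ex⟩) p

theorem frP_eq (p : Pat) (k : Pat → Bool) : frP p k = k p := rfl

noncomputable def pat (PT : Tr) (i : ℕ) : Pat := decP (PT.look i)

noncomputable def okL (PT : Tr) (t : ℕ) : Bool :=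
  frP (pat PT (tK t / 16)) fun a => frP (pat PT (tG t)) fun b => frc (tK t % 16 + 1) fun L =>
    frc (tB t) fun x =>
    match spl 90 (Nat.shiftRight t 34) [] [] with
    | [f] :: lx :: rx :: ly :: ry :: inn =>
      okT a b (dec L x).reverse L ⟨tb f 0, lx, rx⟩ ⟨tb f 1, ly, ry⟩ (tb f 2) (tb f 3)
        (Nat.beq (Nat.mod L 2) 1) inn
    | _ => false

theorem okL_spec (R : Type) [CommRing R] {PT : Tr} {t : ℕ} (h : okL PT t = true) :
    TG R (pat PT) t := by
  intro v h1 h2
  simp only [okL, frP_eq, frc_eq] at h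
  split at h
  · rw [← h2, dec_val _ _ h1] at h
    exact good_tile h
  · simp at h

/-- All large odd orders, given a valid certificate. -/
theorem large {PT T S : Tr} {C : ℕ → Cls} {tags : List ℕ} (hT : T.all (okL PT) = true)
    (hS : S.all (okS T S C tags) = true) (hz : (C 0).lo = 0)
    (hC : (tags.all fun t => okC T S t (C t)) = true) (hV : okV C tags = true)
    (N : List ℕ) (h : ∀ n ∈ N, 3 ≤ n) (hs : N.Pairwise (· ≥ ·)) (ho : N.sum % 2 = 1)
    (hq : 20 ≤ N.sum) : HL N.sum N := by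
  obtain ⟨w, l, c, e1, e2, z, hl, hb, ha, z1, z2⟩ := word N h hs ho
  obtain ⟨a, v, u, e, g⟩ := dfa (R := ZMod N.sum) (fun i => okL_spec _ (Tr.all_look hT i))
    (Tr.all_look hS) hz (List.all_eq_true.1 hC) hV hb ha (hl ▸ hq)
  have h1 : true ∈ v ++ u := by rw [← e]; simp
  rw [e] at hl z1 z2
  exact closed_rot ho hl h1 g z1 z2

end Pool.Agent.P.MP_509d99_co
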