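import Pool.Agent.P.MP_509d99_co.Word

set_option autoImplicit false

namespace Pool.Agent.P.MP_509d99_co

/-- Forces the evaluation of a number. -/
def frc {β : Type} (x : ℕ) (k : ℕ → β) : β := Nat.rec (k 0) (fun n _ => k n.succ) x

theorem frc_eq {β : Type} (x : ℕ) (k : ℕ → β) : frc x k = k x := by cases x <;> rfl

inductive Tr where
  | l (a : ℕ) : Tr
  | n (x y : Tr) : Tr

noncomputable def Tr.look (t : Tr) : ℕ → ℕ :=
  Tr.rec (motive := fun _ => ℕ → ℕ) (fun a _ => a)
    (fun _ _ f g i => frc (Nat.div i 2) fun j => bif Nat.beq (Nat.mod i 2) 0 then f j else g j) t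

noncomputable def Tr.all (p : ℕ → Bool) (t : Tr) : Bool :=
  Tr.rec (motive := fun _ => Bool) p (fun _ _ f g => f && g) t

theorem Tr.all_n (p : ℕ → Bool) (x y : Tr) : (Tr.n x y).all p = (x.all p && y.all p) := rfl

theorem Tr.all_look {p : ℕ → Bool} {t : Tr} (h : t.all p = true) (i : ℕ) : p (t.look i) = true := by
  induction t generalizing i with
  | l a => exact h
  | n x y ihx ihy =>
    rw [Tr.all_n, Bool.and_eq_true] at h
    show p (frc (Nat.div i 2) fun j => bif Nat.beq (Nat.mod i 2) 0 then x.look j else y.look j) = true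
    rw [frc_eq]
    cases Nat.beq (Nat.mod i 2) 0
    · exact ihy h.2 _
    · exact ihx h.1 _

def val : List Bool → ℕ
  | [] => 0
  | b :: h => 2 * val h + b.toNat

def dec : ℕ → ℕ → List Bool
  | 0, _ => []
  | L + 1, x => Nat.beq (x % 2) 1 :: dec L (x / 2)

theorem dec_len (L x : ℕ) : (dec L x).length = L := by
  induction L generalizing x with
  | zero => rfl
  | succ L ih => simp [dec, ih]

theorem dec_val (L : ℕ) (h : List Bool) (k : L ≤ h.length) : dec L (val h % 2 ^ L) = h.take L := by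
  induction L generalizing h with
  | zero => rfl
  | succ L ih =>
    obtain _ | ⟨b, h⟩ := h
    · simp at k
    have e1 : (2 * val h + b.toNat) % 2 ^ (L + 1) / 2 = val h % 2 ^ L := by
      rw [pow_succ', Nat.mod_mul_right_div_self]; congr 1; cases b <;> simp <;> omega
    have e2 : (2 * val h + b.toNat) % 2 ^ (L + 1) % 2 = b.toNat := by
      rw [Nat.mod_mod_of_dvd _ (dvd_pow_self 2 (by omega))]; cases b <;> simp
    simp only [dec, val, e1, e2, List.take_succ_cons, ih h (by simpa using k)]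
    cases b <;> rfl

theorem val_win {h : List Bool} {wl w L : ℕ} (b : Bool) (e : val h % 2 ^ wl = w) (k : L ≤ wl + 1) :
    val (b :: h) % 2 ^ L = (2 * w + b.toNat) % 2 ^ L := by
  have : val h ≡ w [MOD 2 ^ wl] := e ▸ (Nat.mod_modEq _ _).symm
  exact ((this.mul_left' 2).add_right _).of_dvd (by rw [← pow_succ']; exact pow_dvd_pow 2 k)

/-- The forced letters. -/
def Frc : ℕ → List Bool → Prop
  | f, [] => f ≤ 1
  | f, b :: r => f ≤ 1 ∨ (f % 2 = b.toNat ∧ Frc (f / 2) r)

theorem frc_one {f : ℕ} (h : f ≤ 1) (r : List Bool) : Frc f r := by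
  cases r
  · exact h
  · exact Or.inl h

def stepF (b : Bool) (cs : List ℕ) : List ℕ := (cs.filter fun f => Nat.beq (f % 2) b.toNat).map (· / 2)

theorem stepF_spec {b : Bool} {cs : List ℕ} {r : List Bool} (h : ∃ f ∈ stepF b cs, Frc f r) :
    ∃ f ∈ cs, Frc f (b :: r) := by
  obtain ⟨f, hf, k⟩ := h
  simp only [stepF, List.mem_map, List.mem_filter, Nat.beq_eq] at hf
  obtain ⟨g, ⟨h1, h2⟩, rfl⟩ := hf
  exact ⟨g, h1, Or.inr ⟨h2, k⟩⟩

def cov (lim lo : ℕ) : ℕ → M → List ℕ → Bool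
  | 0, _, cs => cs.any (Nat.ble · 1)
  | f + 1, m, cs => cs.any (Nat.ble · 1) ||
    ((!al lim lo m false || cov lim lo f (nxt m false) (stepF false cs)) &&
      (!al lim lo m true || cov lim lo f (nxt m true) (stepF true cs)))

theorem cov_spec {lim lo : ℕ} {fin : M} (f : ℕ) (m : M) (cs : List ℕ) (r : List Bool)
    (h : cov lim lo f m cs = true) (ha : Acc lim lo fin m r) (k : f ≤ r.length) :
    ∃ g ∈ cs, Frc g r := by
  have base : ∀ (cs : List ℕ) (r : List Bool), cs.any (Nat.ble · 1) = true → ∃ g ∈ cs, Frc g r := by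
    intro cs r h
    obtain ⟨g, hg, e⟩ := List.any_eq_true.1 h
    exact ⟨g, hg, frc_one (Nat.le_of_ble_eq_true e) r⟩
  induction f generalizing m cs r with
  | zero => exact base _ _ h
  | succ f ih =>
    obtain _ | ⟨b, r⟩ := r
    · simp at k
    simp only [cov, Bool.or_eq_true, Bool.and_eq_true, Bool.not_eq_true'] at h
    rcases h with h | h
    · exact base _ _ h
    refine stepF_spec (ih _ _ _ ?_ ha.2 (by simpa using k))
    have := ha.1
    cases b
    · exact h.1.resolve_left (by simp [this])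
    · exact h.2.resolve_left (by simp [this])

def tK (t : ℕ) : ℕ := Nat.mod t 4096
def tG (t : ℕ) : ℕ := Nat.mod (Nat.div t 4096) 256
def tB (t : ℕ) : ℕ := Nat.mod (Nat.div t 1048576) 16384

/-- The set of nodes of a state as a bit mask. -/
noncomputable def msk (f : ℕ) : ℕ → ℕ :=
  Nat.rec (motive := fun _ => ℕ → ℕ) (fun _ => 0) (fun _ g n => bif Nat.beq n 0 then 0 else
    frc (Nat.div n 4096) fun n' => Nat.lor (Nat.pow 2 (Nat.mod n 4096)) (g n')) f

def tb (x k : ℕ) : Bool := Nat.beq (Nat.mod (Nat.shiftRight x k) 2) 1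

theorem tb_eq (x k : ℕ) : tb x k = x.testBit k := by
  rw [Nat.testBit_eq_decide_div_mod_eq, ← Nat.shiftRight_eq_div_pow, Bool.eq_iff_iff]
  simp only [tb, Nat.beq_eq, decide_eq_true_eq]; rfl

theorem msk_succ {f n k : ℕ} (h : tb (msk (f + 1) n) k = true) :
    Nat.beq n 0 = false ∧ (k = Nat.mod n 4096 ∨ tb (msk f (Nat.div n 4096)) k = true) := by
  change tb (bif Nat.beq n 0 then 0 else frc _ fun n' => Nat.pow 2 (Nat.mod n 4096) ||| msk f n') k = true at h
  cases e : Nat.beq n 0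
  · simp only [e, cond_false, frc_eq, tb_eq, Nat.testBit_or, Bool.or_eq_true] at h ⊢
    refine ⟨trivial, h.imp_left fun h => ?_⟩
    exact (of_decide_eq_true (Nat.testBit_two_pow.symm.trans h)).symm
  · simp [e, tb_eq] at h

noncomputable def chkN (T : Tr) (x wl w2 f : ℕ) : ℕ → ℕ → Bool :=
  Nat.rec (motive := fun _ => ℕ → ℕ → Bool) (fun _ _ => true) (fun _ g n hn =>
    bif Nat.beq n 0 then true else frc (Nat.mod n 4096) fun k => frc (Nat.div n 4096) fun n' =>
      bif Nat.beq (Nat.mod k 16) 0 then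
        (frc (T.look (Nat.mod hn 8192)) fun t => frc (tK t) fun s => Nat.beq (tG t) (Nat.div k 16) &&
          tb x s && Nat.ble (Nat.mod s 16) wl &&
          Nat.beq (Nat.mod w2 (Nat.pow 2 (Nat.succ (Nat.mod s 16)))) (tB t)) &&
        frc (Nat.div hn 8192) fun hn' => g n' hn'
      else tb x (Nat.pred k) && g n' hn) f

noncomputable def chkI (T : Tr) (ks : ℕ) (h0 : List Bool) (f : ℕ) : ℕ → ℕ → Bool :=
  Nat.rec (motive := fun _ => ℕ → ℕ → Bool) (fun _ _ => true) (fun _ g n hn =>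
    bif Nat.beq n 0 then true else frc (Nat.mod n 4096) fun k => frc (Nat.div n 4096) fun n' =>
      bif Nat.beq k ks then g n' hn else
        (frc (T.look (Nat.mod hn 8192)) fun t => Nat.beq (tG t) (k / 16) &&
          Nat.beq (tK t / 16) (ks / 16) && Nat.beq (tK t % 16 + 1) (h0.drop (k % 16)).length &&
          Nat.beq (val (h0.drop (k % 16)) % 2 ^ (tK t % 16 + 1)) (tB t)) &&
        frc (Nat.div hn 8192) fun hn' => g n' hn') f

structure St where
  m : M
  lim : ℕ
  wl : ℕ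
  w : ℕ
  tag : ℕ
  dep : ℕ
  fr : ℕ
  nd : ℕ

structure Cls where
  l : ℕ
  c : ℕ
  fr : ℕ
  lo : ℕ
  ks : ℕ
  u : ℕ
  ini : ℕ
  E : ℕ
  hn : ℕ
  solo : Bool

def fd (x a b : ℕ) : ℕ := Nat.mod (Nat.shiftRight x a) b

def decS (x : ℕ) : St :=
  ⟨⟨fd x 0 8, fd x 3 8, Nat.beq (fd x 6 2) 1, fd x 7 8, fd x 10 8⟩, fd x 13 8, fd x 16 16,
    fd x 20 16384, fd x 34 64, fd x 40 32, fd x 45 65536, fd x 112 (Nat.pow 2 (fd x 87 2048))⟩

def decK (x : ℕ) (k : St → Bool) : Bool :=
  frc (fd x 0 8) fun l0 => frc (fd x 3 8) fun c0 => frc (fd x 6 2) fun a => frc (fd x 7 8) fun l1 =>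
  frc (fd x 10 8) fun c1 => frc (fd x 13 8) fun lim => frc (fd x 16 16) fun wl =>
  frc (fd x 20 16384) fun w => frc (fd x 34 64) fun tag => frc (fd x 40 32) fun dep =>
  frc (fd x 45 65536) fun fr => frc (fd x 112 (Nat.pow 2 (fd x 87 2048))) fun nd =>
  k ⟨⟨l0, c0, Nat.beq a 1, l1, c1⟩, lim, wl, w, tag, dep, fr, nd⟩

theorem decK_eq (x : ℕ) (k : St → Bool) : decK x k = k (decS x) := by
  simp only [decK, frc_eq, decS]

def M.eqb (m m' : M) : Bool := Nat.beq m.l0 m'.l0 && Nat.beq m.c0 m'.c0 && (m.a == m'.a) &&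
  Nat.beq m.l1 m'.l1 && Nat.beq m.c1 m'.c1

theorem M.eq_of {m m' : M} (h : m.eqb m' = true) : m = m' := by
  cases m; cases m'; simpa [M.eqb, and_assoc] using h

noncomputable def edge (T S : Tr) (c : Cls) (x : St) (mk : ℕ) (b : Bool) (nx hn : ℕ) : Bool :=
  !(al x.lim c.lo x.m b && (Nat.ble x.fr 1 || Nat.beq (Nat.mod x.fr 2) b.toNat)) ||
  frc (S.look nx) fun yn => decK yn fun y => y.m.eqb (nxt x.m b) && Nat.beq y.lim x.lim &&
    (Nat.beq y.tag x.tag || (Nat.beq y.tag 0 && !c.solo)) &&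
    (Nat.beq y.dep 0 || (Nat.ble 1 x.dep && Nat.beq y.dep (Nat.succ x.dep))) &&
    (Nat.ble y.fr 1 || (Nat.ble 2 x.fr && Nat.beq y.fr (Nat.div x.fr 2))) &&
    Nat.ble y.wl (Nat.succ x.wl) &&
    frc (Nat.add (Nat.mul 2 x.w) b.toNat) fun w2 =>
      Nat.beq (Nat.mod w2 (Nat.pow 2 y.wl)) y.w && chkN T mk x.wl w2 100 y.nd hn

def ob (x : St) (mk : ℕ) (c : Cls) : Bool :=
  !(Nat.beq x.lim c.l && Nat.beq x.m.l1 c.l && Nat.beq x.m.c1 c.c &&
      tb c.E (Nat.add (Nat.mul 8 x.m.l0) x.m.c0)) ||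
    (Nat.ble (c.ks % 16) x.wl && Nat.beq (x.w % 2 ^ (c.ks % 16)) c.u && tb mk c.ks)

noncomputable def okS (T S : Tr) (C : ℕ → Cls) (tags : List ℕ) (xn : ℕ) : Bool :=
  decK xn fun x => frc (msk 100 x.nd) fun mk => Nat.ble x.dep 20 &&
    (x.m.a || Nat.ble 1 x.dep || Nat.ble 2 x.fr ||
      bif Nat.beq x.tag 0 then tags.all fun t => (C t).solo || ob x mk (C t) else ob x mk (C x.tag)) &&
    frc (Nat.shiftRight xn (Nat.add 112 (fd xn 87 2048))) fun hn =>
      edge T S (C x.tag) x mk false (fd xn 61 8192) hn &&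
      edge T S (C x.tag) x mk true (fd xn 74 8192) (Nat.shiftRight hn (fd xn 98 1024))

noncomputable def okC (T S : Tr) (t : ℕ) (c : Cls) : Bool :=
  Nat.ble 1 t && Nat.ble (c.ks % 16) 15 && decK (S.look c.ini) fun x =>
    x.m.eqb ⟨5, 5, true, c.l, c.c⟩ && Nat.beq x.lim c.l && Nat.beq x.tag t && Nat.ble x.wl (c.ks % 16) &&
    Nat.beq (val (dec (c.ks % 16) c.u) % 2 ^ x.wl) x.w && Nat.ble x.dep 1 &&
    (Nat.ble x.fr 1 || Nat.beq x.fr c.fr) && chkI T c.ks (dec (c.ks % 16) c.u) 100 x.nd c.hn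

def mt (c : Cls) (l k e1 e2 : ℕ) : Bool :=
  Nat.beq c.l l && Nat.beq c.c k && tb c.E (8 * e1 + e2) && Nat.ble c.lo e1

def okV (C : ℕ → Cls) (tags : List ℕ) : Bool :=
  (List.range 6).all fun l => (List.range (l + 1)).all fun k => (List.range (l + 1)).all fun e1 =>
    (List.range (e1 + 1)).all fun e2 => Nat.beq k 0 || Nat.ble e2 2 ||
      cov l e1 16 (nxt ⟨5, 5, true, l, k⟩ true)
        (stepF true ((tags.filter fun t => mt (C t) l k e1 e2).map fun t => (C t).fr))

section sem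

variable (R : Type) [CommRing R] (P : ℕ → Pat)

/-- What a valid tile gives. -/
def TG (t : ℕ) : Prop := ∀ h : List Bool, tK t % 16 + 1 ≤ h.length →
  val h % 2 ^ (tK t % 16 + 1) = tB t →
  Good R (P (tK t / 16)) (h.take (tK t % 16 + 1)).reverse (P (tG t))

def ND (a : Pat) (h : List Bool) (k : ℕ) : Prop := Good R a (h.drop (k % 16)).reverse (P (k / 16))

variable {R P} {T : Tr} (hT : ∀ i, TG R P (T.look i))
include hT

theorem chkN_spec {a : Pat} {h : List Bool} {b : Bool} {x wl w : ℕ}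
    (hx : ∀ k, tb x k = true → ND R P a h k) (h1 : wl ≤ h.length) (h2 : val h % 2 ^ wl = w)
    (f n hn : ℕ) (hc : chkN T x wl (2 * w + b.toNat) f n hn = true) (k : ℕ)
    (hk : tb (msk f n) k = true) : ND R P a (b :: h) k := by
  induction f generalizing n hn with
  | zero => simp [msk, tb_eq] at hk
  | succ f ih =>
    obtain ⟨e, hk⟩ := msk_succ hk
    unfold chkN at hc ih
    simp only [e, cond_false, frc_eq] at hc ih
    cases e2 : Nat.beq (Nat.mod (Nat.mod n 4096) 16) 0 <;>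
      simp only [e2, cond_false, cond_true, Bool.and_eq_true, Nat.beq_eq, Nat.ble_eq] at hc
    · rcases hk with rfl | hk
      · have e3 : Nat.mod n 4096 % 16 ≠ 0 := Nat.ne_of_beq_eq_false e2
        have := hx _ hc.1
        generalize Nat.mod n 4096 = k at *
        have q1 : k % 16 = k.pred % 16 + 1 := by rw [Nat.pred_eq_sub_one]; omega
        have q2 : k / 16 = k.pred / 16 := by rw [Nat.pred_eq_sub_one]; omega
        rw [ND, q1, q2]; exact this
      · exact ih _ _ hc.2 hk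
    · rcases hk with rfl | hk
      · have e3 : Nat.mod n 4096 % 16 = 0 := Nat.eq_of_beq_eq_true e2
        obtain ⟨⟨⟨⟨c1, c2⟩, c3⟩, c4⟩, -⟩ := hc
        generalize T.look (Nat.mod hn 8192) = t, hT (Nat.mod hn 8192) = ht at *
        have c3' : tK t % 16 ≤ wl := c3
        have := good_append (hx _ c2) (ht (b :: h) (by rw [List.length_cons]; omega)
          ((val_win b h2 (by omega)).trans c4))
        rw [← List.drop_succ_cons (a := b), ← List.reverse_append, List.take_append_drop, c1] at this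
        rw [ND, e3]; exact this
      · exact ih _ _ hc.2 hk

theorem chkI_spec {ks : ℕ} {h : List Bool} (hl : h.length = ks % 16)
    (f n hn : ℕ) (hc : chkI T ks h f n hn = true) (k : ℕ)
    (hk : tb (msk f n) k = true) : ND R P (P (ks / 16)) h k := by
  induction f generalizing n hn with
  | zero => simp [msk, tb_eq] at hk
  | succ f ih =>
    obtain ⟨e, hk⟩ := msk_succ hk
    unfold chkI at hc ih
    simp only [e, cond_false, frc_eq] at hc ih
    cases e2 : Nat.beq (Nat.mod n 4096) ks <;>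
      simp only [e2, cond_false, cond_true, Bool.and_eq_true, Nat.beq_eq] at hc
    · rcases hk with rfl | hk
      · obtain ⟨⟨⟨⟨c1, c2⟩, c3⟩, c4⟩, -⟩ := hc
        have := hT _ _ c3.le c4
        rw [c1, c2, c3, List.take_length] at this
        exact this
      · exact ih _ _ hc.2 hk
    · rcases hk with rfl | hk
      · rw [Nat.eq_of_beq_eq_true e2, ND, ← hl, List.drop_length]
        exact good_nil _
      · exact ih _ _ hc hk

omit hT in
variable (R P) in
def Inv (t : ℕ) (c : Cls) (x : St) (h : List Bool) (m : M) (r : List Bool) : Prop :=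
  x.m = m ∧ x.lim = c.l ∧ (x.tag = t ∨ (x.tag = 0 ∧ c.solo = false)) ∧ x.wl ≤ h.length ∧
    val h % 2 ^ x.wl = x.w ∧ (x.dep = 0 ∨ x.dep + c.ks % 16 = h.length + 1) ∧ Frc x.fr r ∧
    ∀ k, tb (msk 100 x.nd) k = true → ND R P (P (c.ks / 16)) h k

variable {S : Tr} {C : ℕ → Cls} {tags : List ℕ} (hS : ∀ i, okS T S C tags (S.look i) = true)
  (hz : (C 0).lo = 0)
include hS hz

theorem run_spec {t e1 : ℕ} {fin : M} (hlo : (C t).lo ≤ e1) (r : List Bool) (i : ℕ) (h : List Bool)
    (m : M) (hI : Inv R P t (C t) (decS (S.look i)) h m r) (ha : Acc (C t).l e1 fin m r) :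
    ∃ j, Inv R P t (C t) (decS (S.look j)) (r.reverse ++ h) fin [] := by
  induction r generalizing i h m with
  | nil => exact ⟨i, ha ▸ hI⟩
  | cons b r ih =>
    have k := hS i
    simp only [okS, decK_eq, frc_eq, Bool.and_eq_true] at k
    obtain ⟨nx, hn, k⟩ : ∃ nx hn, edge T S (C (decS (S.look i)).tag) (decS (S.look i))
        (msk 100 (decS (S.look i)).nd) b nx hn = true := by
      cases b
      · exact ⟨_, _, k.2.1⟩
      · exact ⟨_, _, k.2.2⟩
    generalize decS (S.look i) = x at *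
    obtain ⟨i1, i2, i3, i4, i5, i6, i7, i8⟩ := hI
    have a1 : al x.lim (C x.tag).lo x.m b = true := by
      rw [i1, i2]
      refine al_mono ha.1 ?_
      rcases i3 with e | e
      · rw [e]; exact hlo
      · rw [e.1, hz]; exact Nat.zero_le _
    have a2 : (Nat.ble x.fr 1 || Nat.beq (Nat.mod x.fr 2) b.toNat) = true := by
      simp only [Bool.or_eq_true, Nat.ble_eq, Nat.beq_eq]
      exact i7.imp_right And.left
    simp only [edge, a1, a2, Bool.and_self, Bool.not_true, Bool.false_or, frc_eq, decK_eq,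
      Bool.and_eq_true, Bool.or_eq_true, Nat.beq_eq, Nat.ble_eq, Bool.not_eq_true'] at k
    obtain ⟨⟨⟨⟨⟨⟨k1, k2⟩, k3⟩, k4⟩, k5⟩, k6⟩, k7, k8⟩ := k
    rw [List.reverse_cons, List.append_assoc, List.singleton_append]
    refine ih nx (b :: h) (nxt m b) ⟨i1 ▸ M.eq_of k1, k2.trans i2, ?_, ?_, ?_, ?_, ?_,
      chkN_spec hT i8 i4 i5 _ _ _ k8⟩ ha.2
    · rcases i3 with e | e
      · rw [e] at k3; exact k3
      · exact Or.inr ⟨k3.elim (fun k => k.trans e.1) And.left, e.2⟩
    · rw [List.length_cons]; omega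
    · exact (val_win b i5 k6).trans k7
    · rw [List.length_cons]; omega
    · rcases k5 with e | e
      · exact frc_one e r
      · rw [e.2]; exact (i7.resolve_left (by omega)).2

theorem dfa (hC : ∀ t ∈ tags, okC T S t (C t) = true) (hV : okV C tags = true) {w : List Bool}
    {l c e1 e2 : ℕ} (hb : 1 ≤ c ∧ c ≤ l ∧ l ≤ 5 ∧ 3 ≤ e2 ∧ e2 ≤ e1 ∧ e1 ≤ l)
    (ha : Acc l e1 ⟨e1, e2, false, l, c⟩ ⟨5, 5, true, l, c⟩ (true :: w)) (hw : 20 ≤ (true :: w).length) :
    ∃ a v u, true :: w = v ++ u ∧ Good R a (u ++ v) a := by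
  simp only [okV, List.all_eq_true, List.mem_range, Bool.or_eq_true, Nat.beq_eq, Nat.ble_eq] at hV
  have h1 := (hV l (by omega) c (by omega) e1 (by omega) e2 (by omega)).resolve_left (by omega)
  obtain ⟨g, hg, hF⟩ := stepF_spec (cov_spec _ _ _ _ h1 ha.2 (by rw [List.length_cons] at hw; omega))
  simp only [List.mem_map, List.mem_filter, mt, Bool.and_eq_true, Nat.beq_eq, Nat.ble_eq] at hg
  obtain ⟨t, ⟨ht, ⟨⟨rfl, rfl⟩, m3⟩, m4⟩, rfl⟩ := hg
  have k := hC t ht
  simp only [okC, decK_eq, Bool.and_eq_true, Bool.or_eq_true, Nat.beq_eq, Nat.ble_eq] at k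
  obtain ⟨⟨t0, j0⟩, ⟨⟨⟨⟨⟨⟨k1, k2⟩, k3⟩, k4⟩, k5⟩, k6⟩, k7⟩, k8⟩ := k
  obtain ⟨j, i1, i2, i3, i4, i5, i6, i7, i8⟩ := run_spec hT hS hz m4 (true :: w) (C t).ini
    (dec ((C t).ks % 16) (C t).u) _ ⟨M.eq_of k1, k2, Or.inl k3, by rwa [dec_len], k5,
      by rw [dec_len]; omega, k7.elim (fun e => frc_one e _) fun e => e ▸ hF,
      chkI_spec hT (dec_len _ _) _ _ _ k8⟩ ha
  have k := hS j
  simp only [okS, decK_eq, frc_eq, Bool.and_eq_true, Bool.or_eq_true, Nat.ble_eq] at k
  obtain ⟨⟨d, k⟩, -⟩ := k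
  generalize decS (S.look j) = x at *
  generalize true :: w = W at *
  rw [List.length_append, List.length_reverse, dec_len] at i4 i6
  have i7' : x.fr ≤ 1 := i7
  have k' := k.resolve_left (by rw [i1]; simp only [Bool.false_eq_true, false_or]; omega)
  have o : ob x (msk 100 x.nd) (C t) = true := by
    rcases i3 with e | e
    · rwa [e, show Nat.beq t 0 = false from by cases t <;> first | omega | rfl, cond_false] at k'
    · rw [e.1, show Nat.beq 0 0 = true from rfl, cond_true, List.all_eq_true] at k'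
      simpa only [e.2, Bool.false_or] using k' t ht
  have m3' : tb (C t).E (Nat.add (Nat.mul 8 e1) e2) = true := m3
  simp only [ob, i1, i2, m3', Nat.beq_refl, Bool.and_self, Bool.not_true, Bool.false_or,
    Bool.and_eq_true, Nat.ble_eq, Nat.beq_eq] at o
  obtain ⟨⟨o1, o2⟩, o3⟩ := o
  have g := i8 _ o3
  have hj : (C t).ks % 16 ≤ W.reverse.length := by rw [List.length_reverse]; omega
  have e := dec_val ((C t).ks % 16) (W.reverse ++ dec ((C t).ks % 16) (C t).u)
    (by rw [List.length_append]; omega)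
  rw [← Nat.mod_mod_of_dvd _ (pow_dvd_pow 2 o1), i5, o2, List.take_append_of_le_length hj] at e
  rw [ND, List.drop_append_of_le_length hj, List.reverse_append] at g
  refine ⟨_, _, _, ?_, g⟩
  rw [e, ← List.reverse_append, List.take_append_drop, List.reverse_reverse]

end sem

end Pool.Agent.P.MP_509d99_co
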