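import Pool.Agent.P.MP_509d99_co.Dfa

set_option autoImplicit false

namespace Pool.Agent.P.MP_509d99_co

/-- No way to cover `U` by `k` triangles with new distinct sums outside the mask `S`. -/
def tri (q : ℕ) : ℕ → List ℕ → ℕ → Bool
  | 0, _, _ => false
  | _ + 1, [], _ => true
  | k + 1, m :: U, S => U.all fun b => tb S (Nat.mod (Nat.add m b) q) || U.all fun c => Nat.ble c b ||
    tb S (Nat.mod (Nat.add b c) q) || tb S (Nat.mod (Nat.add c m) q) ||
    frc (S ||| 2 ^ ((m + b) % q) ||| 2 ^ ((b + c) % q) ||| 2 ^ ((c + m) % q)) fun S' =>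
      tri q k ((U.erase b).erase c) S'

theorem tri3 {z : List ℕ} (h : z.length = 3) {m : ℕ} (hm : m ∈ z) :
    ∃ b c, b ≤ c ∧ z.Perm [m, b, c] ∧ (cs z).Perm [m + b, b + c, c + m] := by
  obtain ⟨x, y, w, rfl⟩ := List.length_eq_three.1 h
  have e : cs [x, y, w] = [x + y, y + w, w + x] := rfl
  rw [e]
  simp only [List.mem_cons, List.not_mem_nil, or_false] at hm
  rcases hm with rfl | rfl | rfl
  · rcases le_total y w with k | k <;> refine ⟨_, _, k, ?_, ?_⟩ <;>
      exact List.perm_iff_count.2 fun a => by simp [List.count_cons, add_comm, add_left_comm]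
  · rcases le_total x w with k | k <;> refine ⟨_, _, k, ?_, ?_⟩ <;>
      exact List.perm_iff_count.2 fun a => by simp [List.count_cons, add_comm, add_left_comm]
  · rcases le_total x y with k | k <;> refine ⟨_, _, k, ?_, ?_⟩ <;>
      exact List.perm_iff_count.2 fun a => by simp [List.count_cons, add_comm, add_left_comm]

theorem tri_spec (q k : ℕ) (C : List (List ℕ)) (U : List ℕ) (S : ℕ) (hk : C.length = k)
    (h3 : ∀ z ∈ C, z.length = 3) (hU : C.flatten.Perm U) (hn : ((C.flatMap cs).map (· % q)).Nodup)
    (hS : ∀ x ∈ (C.flatMap cs).map (· % q), tb S x = false) : tri q k U S = false := by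
  induction k generalizing C U S with
  | zero => rfl
  | succ k ih =>
    obtain _ | ⟨m, U⟩ := U
    · obtain _ | ⟨z, C⟩ := C
      · simp at hk
      have e := hU.length_eq
      rw [List.flatten_cons, List.length_append, h3 z (by simp), List.length_nil] at e
      omega
    obtain ⟨z, hz, hm⟩ := List.mem_flatten.1 (hU.symm.subset (List.mem_cons_self))
    obtain ⟨b, c, hbc, p1, p2⟩ := tri3 (h3 z hz) hm
    have pc := List.perm_cons_erase hz
    have hl := pc.length_eq
    generalize C.erase z = D at pc hl
    have v1 : (b :: c :: D.flatten).Perm U :=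
      ((p1.symm.append_right _).trans (pc.flatten.symm.trans hU)).cons_inv
    have s1 : ((C.flatMap cs).map (· % q)).Perm
        ((m + b) % q :: (b + c) % q :: (c + m) % q :: (D.flatMap cs).map (· % q)) :=
      ((pc.flatMap_right cs).trans (p2.append_right _)).map _
    rw [s1.nodup_iff] at hn
    replace hS := fun x hx => hS x (s1.symm.subset hx)
    simp only [List.nodup_cons, List.mem_cons, not_or] at hn hS
    have hb : b < c := lt_of_le_of_ne hbc fun e => hn.1.2.1 (by rw [e, add_comm])
    have v2 : D.flatten.Perm ((U.erase b).erase c) := by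
      have := (v1.erase b).erase c
      simpa using this
    have na : ∀ x y, Nat.mod (Nat.add x y) q = (x + y) % q := fun _ _ => rfl
    simp only [tri, na]
    rw [List.all_eq_false]
    refine ⟨b, v1.subset (by simp), ?_⟩
    rw [hS _ (Or.inl rfl), Bool.false_or, Bool.not_eq_true, List.all_eq_false]
    refine ⟨c, v1.subset (by simp), ?_⟩
    rw [hS _ (by simp), hS _ (by simp), frc_eq, ih D _ _ (by simpa [hk] using hl.symm)
      (fun y hy => h3 y (pc.symm.subset (by simp [hy]))) v2 hn.2.2.2 fun x hx => ?_]
    · simpa using hb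
    · have := hS x (by simp [hx])
      simp only [tb_eq, Nat.testBit_or, Nat.testBit_two_pow, Bool.or_eq_false_iff,
        decide_eq_false_iff_not] at this ⊢
      exact ⟨⟨⟨this, fun e => hn.1.2.2 (e ▸ hx)⟩, fun e => hn.2.1.2 (e ▸ hx)⟩, fun e => hn.2.2.1 (e ▸ hx)⟩

def allL (q : ℕ) : ℕ → ℕ → (List ℕ → Bool) → Bool
  | 0, _, p => p []
  | n + 1, S, p => (List.range q).all fun x => tb S x || frc (S ||| 2 ^ x) fun S' =>
    allL q n S' fun t => p (x :: t)

theorem allL_spec {q n S : ℕ} {p : List ℕ → Bool} (h : allL q n S p = true) (t : List ℕ)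
    (hl : t.length = n) (ht : ∀ x ∈ t, x < q) (hn : t.Nodup) (hS : ∀ x ∈ t, tb S x = false) :
    p t = true := by
  induction t generalizing n p S with
  | nil => subst hl; exact h
  | cons x t ih =>
    subst hl
    have := List.all_eq_true.1 h x (List.mem_range.2 (ht x (by simp)))
    rw [hS x (by simp), Bool.false_or, frc_eq] at this
    rw [List.nodup_cons] at hn
    refine ih this rfl (fun y hy => ht y (by simp [hy])) hn.2 fun y hy => ?_
    have := hS y (by simp [hy])
    simp only [tb_eq, Nat.testBit_or, Nat.testBit_two_pow, Bool.or_eq_false_iff,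
      decide_eq_false_iff_not] at this ⊢
    exact ⟨this, fun e => hn.1 (e ▸ hy)⟩

def mask (l : List ℕ) : ℕ := l.foldr (fun x a => 2 ^ x ||| a) 0

theorem mask_spec {l : List ℕ} {x : ℕ} (h : x ∉ l) : tb (mask l) x = false := by
  rw [tb_eq]
  induction l with
  | nil => simp [mask]
  | cons y l ih =>
    simp only [List.mem_cons, not_or] at h
    have := ih h.2
    simp only [mask, List.foldr_cons, Nat.testBit_or, Nat.testBit_two_pow] at this ⊢
    simp [this, Ne.symm h.1]

def exc (q m k : ℕ) : Bool := allL q m 1 fun t =>
  !decide ((cs (0 :: t)).map (· % q)).Nodup || frc (mask ((cs (0 :: t)).map (· % q))) fun S =>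
    tri q k ((List.range q).filter fun x => !(0 :: t).contains x) S

theorem ps_val {q : ℕ} [NeZero q] (a : ZMod q) (l : List (ZMod q)) :
    (ps (l.map fun x => (x - a).val)).map (· % q) = (ps l).map fun x => (x - (a + a)).val := by
  induction l with
  | nil => rfl
  | cons x l ih =>
    cases l with
    | nil => rfl
    | cons y l =>
      simp only [List.map_cons, ps] at ih ⊢
      rw [ih, ← ZMod.val_add]; congr 2; ring

theorem not_HL {q m k : ℕ} [NeZero q] (hq : q = m + 1 + 3 * k) (h : exc q m k = true) :
    ¬ HL q ((m + 1) :: List.replicate k 3) := by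
  rintro ⟨C, hl, hv, hs⟩
  obtain ⟨z, hz, e⟩ := List.mem_map.1 (hl.symm.subset List.mem_cons_self)
  have pc := List.perm_cons_erase hz
  generalize C.erase z = D at pc
  have l2 : (D.map List.length).Perm (List.replicate k 3) := by
    have := (pc.map List.length).symm.trans hl
    rw [List.map_cons, e] at this
    exact this.cons_inv
  rw [pc.flatten.nodup_iff] at hv
  rw [(pc.flatMap_right cs).nodup_iff] at hs
  obtain _ | ⟨a, t⟩ := z
  · simp at e
  have inj : ∀ b : ZMod q, Function.Injective fun x : ZMod q => (x - b).val := fun b x y e =>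
    sub_left_injective (ZMod.val_injective q e)
  have hv' := hv.map (inj a)
  have hs' := hs.map (inj (a + a))
  have cv : ∀ l : List (ZMod q), (cs l).map (fun x => (x - (a + a)).val)
      = (cs (l.map fun x => (x - a).val)).map (· % q) := by
    intro l; rw [cs, cs, ← ps_val, List.map_append, List.map_take]
  have z0 : (a :: t).map (fun x => (x - a).val) = 0 :: t.map fun x => (x - a).val := by simp
  rw [List.flatten_cons, List.map_append, z0, List.map_flatten] at hv'
  rw [List.flatMap_cons, List.map_append, cv, z0, List.map_flatMap] at hs'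
  have lt : ∀ x ∈ (0 :: t.map fun x => (x - a).val) ++ (D.map (List.map fun x => (x - a).val)).flatten,
      x < q := by
    rw [← z0, ← List.map_flatten, ← List.map_append]
    intro x hx
    obtain ⟨y, -, rfl⟩ := List.mem_map.1 hx
    exact ZMod.val_lt _
  have e2 : (D.flatMap fun l => (cs l).map fun x => (x - (a + a)).val)
      = ((D.map (List.map fun x => (x - a).val)).flatMap cs).map (· % q) := by
    simp only [cv, List.map_flatMap, List.flatMap_map]
  rw [e2] at hs'
  have l3 : ((D.map (List.map fun x => (x - a).val)).map List.length).Perm (List.replicate k 3) := by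
    simpa [Function.comp_def] using l2
  have l4 : (t.map fun x => (x - a).val).length = m := by simpa using e
  generalize D.map (List.map fun x => (x - a).val) = E at *
  generalize t.map (fun x => (x - a).val) = u at *
  have h0 := List.nodup_cons.1 (List.Nodup.of_append_left hv')
  have h1 := allL_spec h u l4 (fun x hx => lt x (by simp [hx])) h0.2 fun x hx => by
    rw [tb_eq, show 1 = 2 ^ 0 from rfl, Nat.testBit_two_pow]
    exact decide_eq_false fun e => h0.1 (e ▸ hx)
  have pr : ((0 :: u) ++ E.flatten).Perm (List.range q) := by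
    refine (hv'.subperm fun x hx => List.mem_range.2 (lt x hx)).perm_of_length_le (le_of_eq ?_)
    rw [List.length_range, List.length_append, List.length_flatten, l3.sum_eq, List.length_cons, l4]
    simp [hq, mul_comm]
  rw [List.nodup_append] at hv' hs'
  simp only [hs'.1, decide_true, Bool.not_true, Bool.false_or, frc_eq] at h1
  rw [tri_spec q k E _ _ (by simpa using l3.length_eq)
    (fun y hy => List.eq_of_mem_replicate (l3.subset (List.mem_map_of_mem hy))) ?_ hs'.2.1
    fun x hx => mask_spec fun hx' => hs'.2.2 x hx' x hx rfl] at h1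
  · exact Bool.noConfusion h1
  · refine (List.Perm.of_eq ?_).trans (pr.filter _)
    rw [List.filter_append, List.filter_eq_nil_iff.2 fun x hx => by simp only [List.contains_iff_mem.2 hx]; simp,
      List.nil_append,
      List.filter_eq_self.2]
    intro x hx
    have := fun hx' => hv'.2.2 x hx' x hx rfl
    simpa using this

end Pool.Agent.P.MP_509d99_co
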