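import Pool.Agent.P.MP_509d99_co.Exc

set_option autoImplicit false

namespace Pool.Agent.P.MP_509d99_co

theorem exc13 : exc 13 3 3 = true := by decide +kernel

end Pool.Agent.P.MP_509d99_co
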