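import Pool.Agent.P.MP_509d99_co.Chain

set_option autoImplicit false

namespace Pool.Agent.P.MP_509d99_co

theorem ps_zip {α : Type} [Add α] (l : List α) : ps l = List.zipWith (· + ·) l l.tail := by
  induction l with
  | nil => rfl
  | cons a l ih =>
    cases l with
    | nil => rfl
    | cons b l => simp only [ps, ih, List.tail_cons, List.zipWith_cons_cons]

theorem cs_fin {α : Type} [Add α] (m : ℕ) (g : Fin m → α) :
    cs ((List.finRange m).map g) = (List.finRange m).map fun a => g a + g (finRotate m a) := by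
  obtain _ | m := m
  · rfl
  rw [cs, ps_zip]
  refine List.ext_getElem (by simp) fun i h1 h2 => ?_
  have hi : i < m + 1 := by simpa using h2
  simp only [List.getElem_zipWith, List.getElem_tail, List.getElem_map, List.getElem_finRange]
  rw [List.getElem_append_left (by simpa using hi)]
  simp only [List.getElem_map, List.getElem_finRange]
  congr 1
  rcases Nat.lt_or_ge i m with k | k
  · rw [List.getElem_append_left (by simpa using k)]
    simp only [List.getElem_map, List.getElem_finRange]
    exact congrArg g (finRotate_of_lt k).symm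
  · obtain rfl : i = m := by omega
    rw [List.getElem_append_right (by simp)]
    simp only [List.getElem_take, List.getElem_map, List.getElem_finRange]
    refine congrArg g (Eq.trans (Fin.ext ?_) finRotate_last'.symm)
    simp

theorem perm_lift {α β : Type} (f : α → β) (m : List β) (l : List α) (h : (l.map f).Perm m) :
    ∃ l' : List α, l'.Perm l ∧ l'.map f = m := by
  classical
  induction m generalizing l with
  | nil => exact ⟨l, List.Perm.refl l, h.eq_nil⟩
  | cons b m ih =>
    obtain ⟨a, ha, rfl⟩ := List.mem_map.1 (h.symm.subset List.mem_cons_self)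
    have p := List.perm_cons_erase ha
    obtain ⟨l', p', e⟩ := ih (l.erase a) ((p.map f).symm.trans h).cons_inv
    exact ⟨a :: l', (p'.cons a).trans p.symm, by rw [List.map_cons, e]⟩

/-- The next vertex along its cycle. -/
def nx {k : ℕ} (n : Fin k → ℕ) (v : Σ i, Fin (n i)) : Σ i, Fin (n i) := ⟨v.1, finRotate _ v.2⟩

theorem HL_fun {k q : ℕ} (n : Fin k → ℕ) : HL q (List.ofFn n) ↔
    ∃ f : (Σ i, Fin (n i)) → ZMod q, Function.Injective f ∧
      Function.Injective fun v => f v + f (nx n v) := by
  let L := (List.finRange k).sigma fun i => List.finRange (n i)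
  have nd : ∀ g : (Σ i, Fin (n i)) → ZMod q, (L.map g).Nodup ↔ Function.Injective g := fun g => by
    rw [List.nodup_map_iff_inj_on ((List.nodup_finRange k).sigma fun i => List.nodup_finRange _)]
    have : ∀ v, v ∈ L := fun ⟨i, a⟩ => List.mem_sigma.2 ⟨List.mem_finRange i, List.mem_finRange a⟩
    exact ⟨fun h x y => h x (this x) y (this y), fun h x _ y _ e => h e⟩
  let C := fun f : (Σ i, Fin (n i)) → ZMod q =>
    (List.finRange k).map fun i => (List.finRange (n i)).map fun a => f ⟨i, a⟩
  have c1 : ∀ f, (C f).flatten = L.map f := fun f => by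
    simp only [C, L, List.sigma, List.map_flatten, List.map_map, List.flatMap_def, Function.comp_def]
  have c2 : ∀ f, (C f).flatMap cs = L.map fun v => f v + f (nx n v) := fun f => by
    simp only [C, L, List.sigma, List.map_flatMap, List.map_map, List.flatMap_map, cs_fin]; rfl
  have c3 : ∀ f, (C f).map List.length = List.ofFn n := fun f => by
    simp [C, List.ofFn_eq_map, Function.comp_def]
  constructor
  · rintro ⟨D, h1, h2, h3⟩
    obtain ⟨E, p, e⟩ := perm_lift _ _ _ h1
    rw [← p.flatten.nodup_iff] at h2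
    rw [← (p.flatMap_right cs).nodup_iff] at h3
    have hl : E.length = k := by simpa using congrArg List.length e
    obtain ⟨f, hf⟩ : ∃ f, E = C f := by
      refine ⟨fun v => (E.getD v.1 []).getD v.2 0, ?_⟩
      refine List.ext_getElem (by simp [C, hl]) fun i a1 a2 => ?_
      have : E[i].length = n ⟨i, hl ▸ a1⟩ := by
        have := List.getElem_of_eq e (i := i) (by simpa using a1)
        simpa using this
      refine List.ext_getElem (by simp [C, this]) fun j b1 b2 => ?_
      simp [C, a1, b1]
    rw [hf, c1 f, nd] at h2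
    rw [hf, c2 f, nd] at h3
    exact ⟨f, h2, h3⟩
  · rintro ⟨f, h1, h2⟩
    exact ⟨C f, List.Perm.of_eq (c3 f), by rwa [c1, nd], by rwa [c2, nd]⟩

theorem odd_of_fun {V : Type} [Fintype V] {q : ℕ} (h0 : q ≠ 0) (hq : Fintype.card V = q) (s : V → V)
    (hs : Function.Injective s) (f : V → ZMod q) (h1 : Function.Injective f)
    (h2 : Function.Injective fun v => f v + f (s v)) : q % 2 = 1 := by
  obtain ⟨r, rfl⟩ := Nat.exists_eq_succ_of_ne_zero h0
  have b : ∀ g : V → ZMod (r + 1), Function.Injective g → ∑ v, g v = ∑ x : ZMod (r + 1), x :=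
    fun g hg => Function.Bijective.sum_comp
      ((Fintype.bijective_iff_injective_and_card g).2 ⟨hg, by simp [hq]⟩) fun x => x
  have e := b _ h2
  rw [Finset.sum_add_distrib, b f h1, b (fun v => f (s v)) (h1.comp hs), add_eq_left] at e
  have e2 : ∑ x : ZMod (r + 1), x = ((∑ i ∈ Finset.range (r + 1), i : ℕ) : ZMod (r + 1)) := by
    rw [← Fin.sum_univ_eq_sum_range (fun i => i), Nat.cast_sum]
    exact Finset.sum_congr rfl fun x _ => (ZMod.natCast_zmod_val x).symm
  rw [e2, ZMod.natCast_eq_zero_iff] at e
  obtain ⟨c, e⟩ := e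
  have e3 := Finset.sum_range_id_mul_two (r + 1)
  rw [e, mul_assoc, Nat.add_sub_cancel] at e3
  have := Nat.eq_of_mul_eq_mul_left (Nat.succ_pos r) e3
  omega

theorem nx_inj {k : ℕ} (n : Fin k → ℕ) : Function.Injective (nx n) :=
  (Equiv.sigmaCongrRight fun i => finRotate (n i)).injective

theorem nx_nx {k : ℕ} {n : Fin k → ℕ} (hn : ∀ i, 3 ≤ n i) (v : Σ i, Fin (n i)) :
    nx n (nx n v) ≠ v := by
  obtain ⟨i, a⟩ := v
  intro e
  have e2 : finRotate _ (finRotate _ a) = a := eq_of_heq (Sigma.mk.inj e).2
  have := hn i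
  clear e
  generalize n i = m at *
  obtain ⟨m, rfl⟩ := Nat.exists_eq_add_of_le' this
  rw [finRotate_apply, finRotate_apply, add_assoc, add_eq_left] at e2
  have := congrArg Fin.val e2
  simp [Fin.val_add] at this
  rw [Nat.mod_eq_of_lt (by omega)] at this
  omega

theorem adj_rot {m : ℕ} (h : 3 ≤ m) (a b : Fin m) :
    (SimpleGraph.cycleGraph m).Adj a b ↔ b = finRotate m a ∨ a = finRotate m b := by
  obtain ⟨m, rfl⟩ := Nat.exists_eq_add_of_le' h
  rw [SimpleGraph.cycleGraph_adj, finRotate_apply, finRotate_apply, or_comm,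
    sub_eq_iff_eq_add', sub_eq_iff_eq_add']

end Pool.Agent.P.MP_509d99_co
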