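import Pool.Agent.P.MP_509d99_co.Dfa

set_option autoImplicit false

namespace Pool.Agent.P.MP_509d99_co

def okE (C : List (List ℕ)) : Bool :=
  pm C.flatten (List.range' 0 (C.map List.length).sum) &&
    pm ((C.flatMap cs).map (· % (C.map List.length).sum)) (List.range' 0 (C.map List.length).sum)

theorem okE_spec {C : List (List ℕ)} (h : okE C = true) :
    HL (C.map List.length).sum (C.map List.length) := by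
  simp only [okE, Bool.and_eq_true] at h
  generalize (C.map List.length).sum = q at h ⊢
  have nd := fun s : ZMod q => nodup_sh q 0 1 (Nat.coprime_one_right q) one_pos s
  refine ⟨C.map (sh 0), List.Perm.of_eq (by simp [sh, Function.comp_def]), ?_, ?_⟩
  · have : (C.map (sh (0 : ZMod q))).flatten = sh 0 C.flatten := by
      simp only [sh, List.map_flatten]; rfl
    rw [this]
    exact ((pm_perm h.1).map _).nodup_iff.2 (nd 0)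
  · have : (C.map (sh (0 : ZMod q))).flatMap cs = sh (0 + 0) ((C.flatMap cs).map (· % q)) := by
      simp only [List.flatMap_map, cs_sh]
      simp only [sh, List.map_flatMap, List.map_map, Function.comp_def, ZMod.natCast_mod]
    rw [this]
    exact ((pm_perm h.2).map _).nodup_iff.2 (nd _)

def chkP (p : List ℕ → Bool) : ℕ → List ℕ → ℕ → ℕ → Bool
  | 0, a, _, _ => p a
  | f + 1, a, mx, r => p a && (List.range (min mx r + 1)).all fun n =>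
    Nat.ble n 2 || chkP p f (a ++ [n]) n (r - n)

theorem chkP_spec {p : List ℕ → Bool} (f : ℕ) (a : List ℕ) (mx r : ℕ) (h : chkP p f a mx r = true)
    (N : List ℕ) (h3 : ∀ n ∈ N, 3 ≤ n) (hm : ∀ n ∈ N, n ≤ mx) (hs : N.Pairwise (· ≥ ·))
    (hr : N.sum ≤ r) (hf : r ≤ f) : p (a ++ N) = true := by
  induction f generalizing a mx r N with
  | zero =>
    obtain _ | ⟨n, N⟩ := N
    · simpa [chkP] using h
    · have := h3 n (by simp); rw [List.sum_cons] at hr; omega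
  | succ f ih =>
    simp only [chkP, Bool.and_eq_true, List.all_eq_true, List.mem_range, Bool.or_eq_true,
      Nat.ble_eq] at h
    obtain _ | ⟨n, N⟩ := N
    · simpa using h.1
    have a1 := h3 n (by simp)
    have a2 := hm n (by simp)
    rw [List.sum_cons] at hr
    have := ih _ _ _ ((h.2 n (by omega)).resolve_left (by omega)) N (fun m hm => h3 m (by simp [hm]))
      (fun m hm => List.rel_of_pairwise_cons hs hm) hs.of_cons (by omega) (by omega)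
    simpa using this

def tbl : List (List (List ℕ)) :=
  [[[0, 1, 2]],
   [[0, 2, 4, 1, 3]],
   [[0, 1, 6, 5, 4, 2, 3]],
   [[0, 7, 3, 8, 6, 2, 1, 5, 4]],
   [[7, 5, 2, 4, 0, 1], [3, 8, 6]],
   [[2, 0, 5, 8, 4], [1, 6, 3, 7]],
   [[0, 4, 2], [1, 6, 8], [3, 7, 5]],
   [[0, 9, 5, 2, 4, 8, 3, 1, 7, 6, 10]],
   [[1, 8, 9, 6, 7, 4, 10, 0], [2, 5, 3]],
   [[2, 1, 6, 3, 9, 7, 4], [0, 10, 5, 8]],
   [[6, 8, 1, 4, 2, 9], [0, 10, 3, 5, 7]],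
   [[0, 9, 6, 1], [5, 3, 2, 8], [4, 10, 7]],
   [[0, 8, 1, 12, 3, 11, 6, 4, 7, 9, 10, 2, 5]],
   [[10, 11, 1, 8, 7, 12, 6, 4, 0, 3], [2, 9, 5]],
   [[1, 5, 2, 3, 8, 7, 9, 0, 12], [4, 10, 11, 6]],
   [[6, 7, 0, 3, 1, 5, 9, 2], [4, 11, 12, 10, 8]],
   [[0, 9, 8, 10, 6, 4, 7], [1, 11, 2, 12, 3, 5]],
   [[10, 6, 4, 2, 0, 11, 7], [1, 8, 12], [3, 5, 9]],
   [[12, 0, 11, 8, 6, 9], [4, 1, 2, 5], [3, 10, 7]],
   [[6, 5, 9, 7, 3], [8, 12, 1, 11, 10], [0, 4, 2]],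
   [[10, 8, 1, 9, 6], [0, 4, 7, 12], [2, 11, 3, 5]],
   [[0, 2, 7, 8, 4, 14, 6, 5, 1, 9, 10, 12, 11, 3, 13]],
   [[7, 8, 6, 0, 1, 2, 11, 9, 3, 14, 5, 4], [10, 13, 12]],
   [[3, 7, 13, 0, 11, 6, 10, 9, 12, 2, 5], [1, 8, 4, 14]],
   [[2, 1, 6, 5, 3, 10, 9, 7, 14, 0], [4, 11, 13, 12, 8]],
   [[0, 11, 2, 8, 12, 7, 10, 6, 9], [1, 5, 3, 4, 14, 13]],
   [[2, 14, 3, 5, 4, 10, 1, 11, 8], [0, 13, 7], [6, 9, 12]],
   [[4, 2, 1, 8, 12, 10, 0, 11], [3, 13, 6, 7, 5, 9, 14]],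
   [[14, 12, 6, 13, 4, 2, 3, 10], [11, 5, 9, 1], [0, 7, 8]],
   [[2, 7, 13, 9, 6, 4, 12], [3, 0, 8, 5, 14], [1, 10, 11]],
   [[11, 12, 13, 4, 10, 6, 1], [0, 3, 2, 9], [5, 8, 7, 14]],
   [[13, 14, 11, 10, 6, 5], [0, 4, 9, 8, 1, 7], [2, 12, 3]],
   [[6, 14, 11, 4, 12, 0], [13, 5, 2, 7, 1], [3, 8, 9, 10]],
   [[13, 10, 1, 14, 5, 8], [0, 7, 2], [3, 9, 11], [4, 12, 6]],
   [[0, 8, 1, 4, 14], [2, 13, 6, 5, 11], [3, 9, 12, 10, 7]],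
   [[1, 0, 14, 9, 6], [7, 3, 8, 12], [2, 10, 11], [4, 13, 5]],
   [[6, 2, 10, 12], [3, 1, 9, 8], [0, 13, 7, 14], [4, 11, 5]],
   [[0, 13, 9], [1, 5, 10], [2, 3, 14], [4, 8, 6], [7, 12, 11]],
   [[0, 4, 16, 13, 12, 6, 9, 2, 7, 15, 1, 5, 8, 11, 3, 14, 10]],
   [[14, 11, 3, 2, 16, 8, 9, 1, 12, 0, 15, 5, 4, 7], [6, 13, 10]],
   [[8, 15, 14, 11, 13, 0, 3, 7, 12, 2, 9, 6, 10], [1, 4, 5, 16]],
   [[14, 1, 9, 15, 16, 13, 8, 12, 5, 4, 7, 11], [0, 6, 10, 3, 2]],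
   [[9, 13, 11, 6, 4, 7, 2, 0, 16, 15, 14], [1, 12, 8, 10, 5, 3]],
   [[11, 12, 4, 10, 3, 2, 15, 0, 9, 1, 7], [5, 14, 6], [8, 16, 13]],
   [[13, 12, 8, 15, 2, 0, 11, 16, 6, 1], [3, 9, 7, 14, 4, 5, 10]],
   [[7, 16, 14, 15, 11, 5, 12, 6, 2, 8], [10, 1, 13, 9], [0, 3, 4]],
   [[16, 0, 2, 13, 12, 15, 3, 6, 1], [4, 7, 5, 8, 14, 9, 11, 10]],
   [[2, 0, 1, 13, 3, 4, 7, 16, 6], [10, 11, 9, 8, 5], [12, 15, 14]],
   [[16, 1, 9, 7, 2, 6, 13, 5, 15], [0, 12, 11, 4], [3, 8, 14, 10]],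
   [[1, 15, 3, 9, 13, 7, 10, 14], [8, 6, 2, 0, 4, 5], [11, 12, 16]],
   [[8, 10, 11, 5, 7, 13, 4, 3], [16, 6, 2, 0, 15], [1, 9, 14, 12]],
   [[11, 0, 16, 15, 12, 3, 14, 7], [1, 2, 6], [4, 8, 5], [9, 10, 13]],
   [[1, 15, 12, 13, 0, 9, 6], [8, 14, 5, 7, 10, 11, 3], [2, 4, 16]],
   [[8, 13, 14, 15, 9, 5, 3], [10, 7, 12, 6, 0, 16], [1, 2, 11, 4]],
   [[5, 14, 15, 13, 2, 3, 4], [0, 1, 12, 8, 6], [7, 9, 16, 11, 10]],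
   [[0, 5, 4, 12, 15, 3, 14], [16, 9, 6, 7], [1, 10, 2], [8, 11, 13]],
   [[12, 11, 13, 0, 3, 14], [16, 6, 15, 4, 8, 2], [1, 10, 5, 9, 7]],
   [[14, 4, 5, 1, 2, 3], [16, 15, 10, 0, 12], [6, 7, 9], [8, 11, 13]],
   [[12, 14, 10, 4, 16, 11], [13, 5, 0, 2], [7, 1, 15, 6], [3, 8, 9]],
   [[14, 7, 16, 0, 11], [1, 13, 9, 8, 12], [4, 15, 3, 6], [2, 5, 10]],
   [[1, 6, 4, 10, 5], [0, 12, 9, 8], [2, 14, 16, 3], [7, 11, 15, 13]],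
   [[0, 2, 1, 9, 4], [3, 15, 13], [5, 7, 10], [6, 8, 16], [11, 14, 12]],
   [[0, 10, 6, 3], [1, 11, 7, 4], [2, 13, 12], [5, 16, 14], [8, 15, 9]],
   [[0, 14, 8, 16, 9, 1, 18, 12, 5, 4, 11, 10, 2, 6, 17, 15, 3, 13, 7]],
   [[4, 15, 5, 12, 10, 6, 1, 9, 18, 7, 16, 8, 3, 11, 17, 14], [0, 13, 2]],
   [[9, 7, 17, 5, 8, 1, 3, 18, 0, 15, 4, 10, 2, 6, 11], [12, 13, 16, 14]],
   [[4, 6, 15, 13, 0, 16, 8, 11, 3, 12, 5, 17, 9, 14], [1, 7, 18, 2, 10]],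
   [[2, 4, 11, 5, 14, 3, 10, 0, 9, 17, 6, 12, 18], [1, 7, 15, 16, 8, 13]],
   [[0, 10, 2, 7, 18, 5, 15, 6, 9, 4, 12, 14, 3], [1, 13, 17], [8, 11, 16]],
   [[0, 12, 6, 18, 4, 3, 8, 9, 14, 5, 1, 15], [2, 7, 13, 16, 17, 10, 11]],
   [[10, 1, 9, 12, 5, 17, 7, 16, 11, 3, 4, 8], [15, 13, 6, 0], [2, 18, 14]],
   [[12, 8, 4, 5, 10, 1, 17, 9, 18, 6, 13], [0, 16, 7, 14, 15, 2, 11, 3]],
   [[5, 10, 4, 16, 7, 18, 17, 2, 1, 9, 8], [13, 11, 0, 12, 14], [3, 6, 15]],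
   [[18, 15, 7, 11, 4, 2, 0, 12, 16, 8, 5], [1, 10, 17, 9], [3, 13, 6, 14]],
   [[2, 8, 12, 15, 4, 9, 16, 10, 11, 7], [0, 17, 5, 6, 18, 13, 3, 1, 14]],
   [[8, 9, 7, 2, 10, 16, 17, 6, 5, 13], [4, 1, 0, 3, 12, 15], [11, 18, 14]],
   [[9, 7, 4, 3, 1, 13, 14, 8, 16, 12], [2, 17, 15, 5, 10], [0, 6, 11, 18]],
   [[13, 8, 14, 6, 18, 10, 9, 16, 15, 2], [0, 7, 4], [1, 12, 17], [3, 11, 5]],
   [[14, 16, 18, 13, 7, 0, 3, 1, 5], [4, 9, 15, 2, 8, 6, 12], [10, 11, 17]],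
   [[12, 17, 8, 9, 7, 5, 13, 15, 11], [10, 3, 16, 18, 4, 1], [0, 2, 6, 14]],
   [[7, 10, 13, 3, 4, 6, 8, 1, 12], [0, 18, 2, 9, 15], [5, 17, 14, 11, 16]],
   [[9, 2, 15, 16, 7, 18, 11, 3, 17], [1, 14, 5, 4], [0, 13, 8], [6, 12, 10]],
   [[18, 17, 8, 12, 7, 3, 15, 16], [2, 1, 13, 14, 10, 11, 6, 5], [0, 9, 4]],
   [[9, 4, 10, 2, 8, 12, 11, 15], [16, 6, 3, 13, 17, 0, 18], [1, 5, 14, 7]],
   [[5, 7, 18, 17, 12, 10, 14, 16], [6, 3, 15, 2, 13, 1], [0, 4, 9, 11, 8]],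
   [[16, 13, 10, 7, 4, 17, 18, 8], [5, 9, 0, 6, 14], [1, 11, 2], [3, 12, 15]],
   [[5, 6, 12, 17, 15, 13, 8, 0], [9, 10, 16, 7], [14, 1, 11, 3], [2, 4, 18]],
   [[14, 18, 11, 7, 8, 3, 2], [9, 13, 1, 5, 4, 16, 10], [0, 12, 15, 6, 17]],
   [[17, 10, 8, 6, 4, 7, 9], [0, 15, 13, 18, 2, 3], [1, 12, 11, 14, 5, 16]],
   [[11, 4, 16, 12, 5, 13, 8], [1, 3, 0, 6, 2, 10], [7, 9, 17], [14, 18, 15]],
   [[4, 5, 1, 2, 13, 8, 3], [0, 18, 14, 15, 12], [6, 11, 9, 10], [7, 17, 16]],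
   [[3, 7, 13, 15, 4, 2, 0], [1, 11, 16, 17], [5, 8, 18, 12], [6, 10, 14, 9]],
   [[17, 16, 12, 18, 0, 15, 8], [1, 6, 4], [2, 10, 11], [3, 14, 5], [7, 13, 9]],
   [[16, 15, 7, 18, 3, 2], [14, 5, 9, 8, 1, 6], [17, 10, 0, 13], [4, 11, 12]],
   [[12, 5, 9, 10, 6, 18], [1, 11, 4, 3, 0], [15, 14, 13, 8, 17], [2, 7, 16]],
   [[10, 18, 6, 0, 4, 12], [15, 14, 1, 7, 5], [2, 11, 3, 16], [8, 13, 17, 9]],
   [[0, 9, 8, 12, 15, 16], [3, 7, 6, 18], [1, 13, 10], [2, 5, 17], [4, 11, 14]],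
   [[7, 2, 11, 13, 1], [6, 16, 4, 0, 12], [17, 18, 3, 8, 9], [5, 10, 15, 14]],
   [[18, 6, 9, 16, 17], [8, 14, 12, 7, 2], [0, 4, 13], [1, 11, 10], [3, 15, 5]],
   [[0, 7, 10, 4, 16], [8, 3, 18, 5], [2, 17, 12, 6], [1, 14, 11], [9, 15, 13]],
   [[14, 4, 12, 1], [7, 0, 10, 2], [9, 13, 17, 8], [5, 18, 6, 15], [3, 11, 16]],
   [[10, 4, 7, 3], [0, 12, 5], [1, 15, 6], [2, 18, 16], [8, 17, 11], [9, 14, 13]]]

theorem tbl_ok : tbl.all okE = true := by decide +kernel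

theorem tbl_full : chkP (fun N => N.sum % 2 == 0 || N == [4, 3] || N == [5, 3, 3] || N == [4, 3, 3, 3] ||
    (tbl.map (·.map List.length)).contains N) 19 [] 19 19 = true := by decide +kernel

theorem small (N : List ℕ) (h : ∀ n ∈ N, 3 ≤ n) (hs : N.Pairwise (· ≥ ·)) (ho : N.sum % 2 = 1)
    (hq : N.sum ≤ 19) (e1 : N ≠ [4, 3]) (e2 : N ≠ [5, 3, 3]) (e3 : N ≠ [4, 3, 3, 3]) : HL N.sum N := by
  have := chkP_spec _ _ _ _ tbl_full N h (fun n hn => (List.le_sum_of_mem hn).trans hq) hs hq le_rfl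
  simp only [List.nil_append, ho, Bool.or_eq_true, beq_iff_eq, e1, e2, e3, or_false,
    List.contains_iff_mem, List.mem_map, one_ne_zero, false_or] at this
  obtain ⟨C, hC, rfl⟩ := this
  exact okE_spec (List.all_eq_true.1 tbl_ok C hC)

end Pool.Agent.P.MP_509d99_co
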