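import Pool.Agent.P.MP_509d99_co.ChkT0
import Pool.Agent.P.MP_509d99_co.ChkT1
import Pool.Agent.P.MP_509d99_co.ChkT2
import Pool.Agent.P.MP_509d99_co.ChkT3
import Pool.Agent.P.MP_509d99_co.ChkS0
import Pool.Agent.P.MP_509d99_co.ChkS1
import Pool.Agent.P.MP_509d99_co.Small
import Pool.Agent.P.MP_509d99_co.Exc11
import Pool.Agent.P.MP_509d99_co.Exc13

set_option autoImplicit false

namespace Pool.Agent.P.MP_509d99_co

theorem okTs : tT.all (okL pT) = true := by
  simp only [tT, Tr.all_n, okT0, okT1, okT2, okT3, okT4, okT5, okT6, okT7, Bool.and_self]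

theorem okSs : sT.all (okS tT sT cF tg) = true := by
  have : ∀ p : ℕ → Bool, sT.all p = (((sT0.all p && sT4.all p) && (sT2.all p && sT6.all p)) &&
    ((sT1.all p && sT5.all p) && (sT3.all p && sT7.all p))) := fun p => by simp only [sT, Tr.all_n]
  simp only [this, okS0, okS1, okS2, okS3, okS4, okS5, okS6, okS7, Bool.and_self]

theorem exc7 : exc 7 3 1 = true := by decide +kernel

theorem HL.perm {q : ℕ} {N N' : List ℕ} (h : HL q N) (p : N.Perm N') : HL q N' := by
  obtain ⟨C, h1, h2⟩ := h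
  exact ⟨C, h1.trans p, h2⟩

theorem HL_iff (N : List ℕ) (h : ∀ n ∈ N, 3 ≤ n) (ho : N.sum % 2 = 1) :
    HL N.sum N ↔ (N : Multiset ℕ) ≠ {3, 4} ∧ (N : Multiset ℕ) ≠ {3, 3, 5} ∧
      (N : Multiset ℕ) ≠ {3, 3, 3, 4} := by
  constructor
  · intro k
    refine ⟨fun e => ?_, fun e => ?_, fun e => ?_⟩
    · have p : N.Perm [4, 3] := Multiset.coe_eq_coe.1 (e.trans (by decide))
      rw [p.sum_eq] at k
      exact not_HL (q := 7) rfl exc7 (k.perm p)
    · have p : N.Perm [5, 3, 3] := Multiset.coe_eq_coe.1 (e.trans (by decide))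
      rw [p.sum_eq] at k
      exact not_HL (q := 11) rfl exc11 (k.perm p)
    · have p : N.Perm [4, 3, 3, 3] := Multiset.coe_eq_coe.1 (e.trans (by decide))
      rw [p.sum_eq] at k
      exact not_HL (q := 13) rfl exc13 (k.perm p)
  · rintro ⟨e1, e2, e3⟩
    have p := List.perm_insertionSort (· ≥ ·) N
    have hs := List.pairwise_insertionSort (· ≥ ·) N
    generalize List.insertionSort (· ≥ ·) N = M at p hs
    rw [← Multiset.coe_eq_coe.2 p] at e1 e2 e3
    rw [← p.sum_eq] at ho ⊢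
    have h' : ∀ n ∈ M, 3 ≤ n := fun n hn => h n (p.subset hn)
    refine HL.perm ?_ p
    rcases le_or_gt 20 M.sum with hq | hq
    · exact large okTs okSs rfl okCs okVs M h' hs ho hq
    · exact small M h' hs ho (by omega) (fun e => e1 (by rw [e]; decide))
        (fun e => e2 (by rw [e]; decide)) fun e => e3 (by rw [e]; decide)

end Pool.Agent.P.MP_509d99_co
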