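import Mathlib

set_option autoImplicit false

namespace Pool.Agent.P.MP_509d99_co

/-- Sums of consecutive entries of a path. -/
def ps {α : Type} [Add α] : List α → List α
  | a :: b :: t => (a + b) :: ps (b :: t)
  | _ => []

/-- Sums of cyclically consecutive entries of a cycle. -/
def cs {α : Type} [Add α] (z : List α) : List α := ps (z ++ z.take 1)

theorem ps_append {α : Type} [Add α] (l : List α) (a : α) (t : List α) :
    ps (l ++ a :: t) = ps (l ++ [a]) ++ ps (a :: t) := by
  induction l with
  | nil => simp [ps]
  | cons b l ih =>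
    cases l with
    | nil => simp [ps]
    | cons c l => simpa [ps] using ih

/-- The nominal process reading the boundary word on two alternating strands. -/
def nom {α : Type} (one : α) (suc : α → α) : List Bool → α → α → (α × α) × List α
  | [], i, j => ((i, j), [])
  | b :: w, i, j =>
    bif b then ((nom one suc w j one).1, i :: (nom one suc w j one).2) else nom one suc w j (suc i)

theorem nom_map {α β : Type} (one : α) (suc : α → α) (one' : β) (suc' : β → β) (f : α → β)
    (h1 : f one = one') (h2 : ∀ a, f (suc a) = suc' (f a)) (w : List Bool) (i j : α) :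
    nom one' suc' w (f i) (f j) = ((f (nom one suc w i j).1.1, f (nom one suc w i j).1.2),
      (nom one suc w i j).2.map f) := by
  induction w generalizing i j with
  | nil => rfl
  | cons b w ih =>
    cases b
    · simp only [nom, cond_false, ← h2, ih]
    · have := ih j one
      rw [h1] at this
      simp only [nom, cond_true, this, List.map_cons]

theorem nom_append {α : Type} (one : α) (suc : α → α) (v w : List Bool) (i j : α) :
    nom one suc (v ++ w) i j =
      ((nom one suc w (nom one suc v i j).1.1 (nom one suc v i j).1.2).1,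
        (nom one suc v i j).2 ++ (nom one suc w (nom one suc v i j).1.1 (nom one suc v i j).1.2).2) := by
  induction v generalizing i j with
  | nil => rfl
  | cons b v ih => cases b <;> simp [nom, ih]

/-- Nominal cycle lengths. -/
def nz (w : List Bool) (c : ℤ × ℤ) : (ℤ × ℤ) × List ℤ := nom 1 (· + 1) w c.1 c.2

/-- Flags telling which strands have been closed. -/
def fl (w : List Bool) (c : Bool × Bool) : Bool × Bool := (nom true id w c.1 c.2).1

/-- Agreement on the flagged components. -/
def Ag {α : Type} (f : Bool × Bool) (p p' : α × α) : Prop :=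
  (f.1 = true → p.1 = p'.1) ∧ (f.2 = true → p.2 = p'.2)

theorem ag_nz (w : List Bool) (f : Bool × Bool) (c c' : ℤ × ℤ) (h : Ag f c c') :
    Ag (fl w f) (nz w c).1 (nz w c').1 := by
  induction w generalizing f c c' with
  | nil => exact h
  | cons b w ih =>
    cases b
    · exact ih (f.2, f.1) (c.2, c.1 + 1) (c'.2, c'.1 + 1) ⟨h.2, fun e => by simp [h.1 e]⟩
    · exact ih (f.2, true) (c.2, 1) (c'.2, 1) ⟨h.2, fun _ => rfl⟩

theorem fl_mono (w : List Bool) (f : Bool × Bool) :
    (w.length % 2 = 0 → (f.1 = true → (fl w f).1 = true) ∧ (f.2 = true → (fl w f).2 = true)) ∧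
    (w.length % 2 = 1 → (f.1 = true → (fl w f).2 = true) ∧ (f.2 = true → (fl w f).1 = true)) := by
  induction w generalizing f with
  | nil => simp [fl, nom]
  | cons b w ih =>
    have e : fl (b :: w) f = fl w (f.2, b || f.1) := by cases b <;> rfl
    have := ih (f.2, b || f.1)
    rw [e, List.length_cons]
    refine ⟨fun h => ⟨fun h1 => (this.2 (by omega)).2 (by simp [h1]), (this.2 (by omega)).1⟩,
      fun h => ⟨fun h1 => (this.1 (by omega)).2 (by simp [h1]), (this.1 (by omega)).1⟩⟩

theorem fl_side (w : List Bool) (h : true ∈ w) :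
    (∀ f, (fl w f).1 = true) ∨ ∀ f, (fl w f).2 = true := by
  induction w with
  | nil => simp at h
  | cons b w ih =>
    have e : ∀ f : Bool × Bool, fl (b :: w) f = fl w (f.2, b || f.1) := by
      intro f; cases b <;> rfl
    simp only [e]
    by_cases hw : true ∈ w
    · exact (ih hw).imp (fun h f => h _) fun h f => h _
    · obtain rfl : b = true := by simpa [hw] using h
      rcases Nat.mod_two_eq_zero_or_one w.length with hp | hp
      · exact Or.inr fun f => ((fl_mono w _).1 hp).2 (by simp)
      · exact Or.inl fun f => ((fl_mono w _).2 hp).2 (by simp)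

theorem fl_twice (w : List Bool) (h : true ∈ w) (ho : w.length % 2 = 1) (f : Bool × Bool) :
    fl w (fl w f) = (true, true) := by
  rcases fl_side w h with h1 | h1
  · exact Prod.ext (h1 _) (((fl_mono w _).2 ho).1 (h1 _))
  · exact Prod.ext (((fl_mono w _).2 ho).2 (h1 _)) (h1 _)

/-- A checkpoint: ends of the two open paths, length corrections, holes and extra vertices. -/
structure Pat where
  x1 : ℕ
  x2 : ℕ
  y1 : ℕ
  y2 : ℕ
  ea : ℕ
  eb : ℕ
  ho : List ℕ
  ex : List ℕ

/-- What a tile does to one open path. -/
structure Act where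
  cl : Bool
  l : List ℕ
  r : List ℕ

def Act.hd (a : Act) (x1 : ℕ) : Option ℕ := bif a.cl then a.r.head? else (a.l ++ [x1]).head?
def Act.lst (a : Act) (x2 : ℕ) : Option ℕ := bif a.cl then a.r.getLast? else (x2 :: a.r).getLast?
def Act.sums (a : Act) (x1 x2 : ℕ) : List ℕ :=
  bif a.cl then ps (x2 :: a.l ++ [x1]) ++ ps a.r else ps (a.l ++ [x1]) ++ ps (x2 :: a.r)
def Act.sym (a : Act) (t e : ℕ) : ℕ × ℕ :=
  bif a.cl then (0, a.r.length + 4) else (t, e + (a.l.length + a.r.length))
def Act.em (a : Act) (t e : ℕ) : List (ℕ × ℕ) := bif a.cl then [(t, e + a.l.length)] else []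

section sem

variable {R : Type} [CommRing R]

def sh (s : R) (l : List ℕ) : List R := l.map fun o : ℕ => s + (o : R)

theorem ps_sh (s : R) (l : List ℕ) : ps (sh s l) = sh (s + s) (ps l) := by
  induction l with
  | nil => rfl
  | cons a l ih =>
    cases l with
    | nil => rfl
    | cons b l =>
      simp only [sh, List.map_cons, ps] at ih ⊢
      rw [ih]; congr 1; push_cast; ring

theorem sh_append (s : R) (l r : List ℕ) : sh s (l ++ r) = sh s l ++ sh s r := List.map_append

theorem sh_add (s : R) (L : ℕ) (l : List ℕ) : sh (s + L) l = sh s (l.map (L + ·)) := by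
  simp only [sh, List.map_map]
  refine List.map_congr_left fun o _ => ?_
  simp only [Function.comp]; push_cast; ring

theorem cs_sh (s : R) (l : List ℕ) : cs (sh s l) = sh (s + s) (cs l) := by
  rw [cs, cs, ← ps_sh, sh_append]; simp [sh, List.map_take]

def app (s : R) (a : Act) (X : List R) : List R × List (List R) :=
  bif a.cl then (sh s a.r, [X ++ sh s a.l]) else (sh s a.l ++ X ++ sh s a.r, [])

def En (X : List R) (u v : R) : Prop := X.head? = some u ∧ X.getLast? = some v

def ev (i j : ℤ) (p : ℕ × ℕ) : ℤ := (if p.1 = 1 then i else if p.1 = 2 then j else 0) + p.2 - 4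

theorem app_ends (s : R) (a : Act) (X : List R) (x1 x2 z1 z2 : ℕ) (h : En X (s + x1) (s + x2))
    (h1 : a.hd x1 = some z1) (h2 : a.lst x2 = some z2) : En (app s a X).1 (s + z1) (s + z2) := by
  obtain ⟨cl, l, r⟩ := a
  obtain ⟨t, rfl⟩ := List.head?_eq_some_iff.1 h.1
  obtain ⟨u, hu⟩ := List.getLast?_eq_some_iff.1 h.2
  cases cl
  · simp only [Act.hd, Act.lst, cond_false, app] at h1 h2 ⊢
    constructor
    · cases l with
      | nil => simp at h1; simp [sh, h1]
      | cons c l => simp at h1; simp [sh, h1]
    · rw [hu]
      have : (sh s (x2 :: r)).getLast? = some (s + z2) := by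
        simp only [sh, List.getLast?_map, h2, Option.map_some]
      rw [List.append_assoc, List.append_assoc, ← List.append_assoc,
        List.getLast?_append, List.singleton_append]
      simp only [sh, List.map_cons] at this
      simp only [sh]
      rw [this]; rfl
  · simp only [Act.hd, Act.lst, cond_true, app] at h1 h2 ⊢
    exact ⟨by simp only [sh, List.head?_map, h1, Option.map_some],
      by simp only [sh, List.getLast?_map, h2, Option.map_some]⟩

theorem app_verts (s : R) (a : Act) (X : List R) :
    (((app s a X).1 : Multiset R) + ((app s a X).2.flatten : Multiset R))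
      = (X : Multiset R) + (sh s (a.l ++ a.r) : Multiset R) := by
  obtain ⟨cl, l, r⟩ := a
  cases cl <;> simp only [app, cond_false, cond_true, sh_append, List.flatten_nil, List.flatten_cons,
    List.append_nil, ← Multiset.coe_add, Multiset.coe_nil] <;> abel

theorem app_sums (s : R) (a : Act) (X : List R) (x1 x2 : ℕ) (h : En X (s + x1) (s + x2)) :
    ((ps (app s a X).1 : Multiset R) + ((app s a X).2.flatMap cs : Multiset R))
      = (ps X : Multiset R) + (sh (s + s) (a.sums x1 x2) : Multiset R) := by
  obtain ⟨cl, l, r⟩ := a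
  obtain ⟨t, ht⟩ := List.head?_eq_some_iff.1 h.1
  obtain ⟨u, hu⟩ := List.getLast?_eq_some_iff.1 h.2
  have e1 : ∀ m : List R, ps (X ++ m) = ps X ++ ps ((s + x2) :: m) := by
    intro m; rw [hu, List.append_assoc, List.singleton_append, ps_append]
  cases cl
  · simp only [app, Act.sums, cond_false, sh_append, ← ps_sh, List.flatMap_nil, Multiset.coe_nil,
      add_zero]
    have e2 : ps (sh s l ++ X ++ sh s r) = ps (sh s l ++ [s + x1]) ++ ps (X ++ sh s r) := by
      rw [ht, List.append_assoc, List.cons_append, ps_append]
    rw [e2, e1]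
    simp only [sh, List.map_cons, List.map_nil, ← Multiset.coe_add]
    abel
  · simp only [app, Act.sums, cond_true, sh_append, ← ps_sh, List.flatMap_cons, List.flatMap_nil,
      List.append_nil, cs]
    have e2 : (X ++ sh s l).take 1 = [s + x1] := by rw [ht]; simp
    rw [e2, List.append_assoc, e1]
    simp only [sh, List.map_cons, List.map_nil, ← Multiset.coe_add, List.cons_append]
    abel

theorem app_len (s : R) (a : Act) (X : List R) (i j : ℤ) (t e : ℕ)
    (h : (X.length : ℤ) = ev i j (t, e)) :
    (((app s a X).1.length : ℤ) = ev i j (a.sym t e)) ∧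
      (app s a X).2.map (fun z => (z.length : ℤ)) = (a.em t e).map (ev i j) := by
  obtain ⟨cl, l, r⟩ := a
  simp only [ev] at h
  cases cl <;> simp [app, Act.sym, Act.em, sh, ev, h] <;> ring_nf

/-- Flag of a symbolic counter. -/
def fv (f : Bool × Bool) (p : ℕ × ℕ) : Bool :=
  if p.1 = 1 then f.1 else if p.1 = 2 then f.2 else true

theorem app_ag (s : R) (a : Act) (X X' : List R) (f : Bool × Bool) (t e : ℕ)
    (h : fv f (t, e) = true → X = X') (h2 : fv f (a.sym t e) = true) :
    (app s a X).1 = (app s a X').1 := by
  obtain ⟨cl, l, r⟩ := a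
  cases cl
  · rw [h (by simpa [Act.sym, fv] using h2)]
  · rfl

variable (R) in
/-- The word `w` can be realised from checkpoint `a` to checkpoint `b`. -/
def Good (a : Pat) (w : List Bool) (b : Pat) : Prop :=
  ∃ G : R → List R × List R → (List R × List R) × List (List R),
    (∀ (s : R) (p : List R × List R), En p.1 (s + a.x1) (s + a.x2) → En p.2 (s + a.y1) (s + a.y2) →
      En (G s p).1.1 (s + w.length + b.x1) (s + w.length + b.x2) ∧
      En (G s p).1.2 (s + w.length + b.y1) (s + w.length + b.y2) ∧
      (((G s p).1.1 : Multiset R) + ((G s p).1.2 : Multiset R) + ((G s p).2.flatten : Multiset R)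
        + (sh s a.ex : Multiset R) + (sh (s + w.length) b.ho : Multiset R)
        = (p.1 : Multiset R) + (p.2 : Multiset R) + (sh s (List.range' 16 w.length) : Multiset R)
          + (sh (s + w.length) b.ex : Multiset R) + (sh s a.ho : Multiset R)) ∧
      ((ps (G s p).1.1 : Multiset R) + (ps (G s p).1.2 : Multiset R)
        + ((G s p).2.flatMap cs : Multiset R)
        = (ps p.1 : Multiset R) + (ps p.2 : Multiset R)
          + (sh (s + s) (List.range' 32 w.length 2) : Multiset R)) ∧
      (nz w (p.1.length + 4 - a.ea, p.2.length + 4 - a.eb)).1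
        = ((G s p).1.1.length + 4 - (b.ea : ℤ), (G s p).1.2.length + 4 - (b.eb : ℤ)) ∧
      ((nz w (p.1.length + 4 - a.ea, p.2.length + 4 - a.eb)).2 : Multiset ℤ)
        = ((G s p).2.map (fun z => (z.length : ℤ)) : List ℤ)) ∧
    ∀ (s : R) (p p' : List R × List R) (f : Bool × Bool),
      Ag f p p' → Ag (fl w f) (G s p).1 (G s p').1

theorem good_nil (a : Pat) : Good R a [] a := by
  refine ⟨fun _ p => (p, []), fun s p h1 h2 => ?_, fun s p p' f h => h⟩
  simp only [List.length_nil, Nat.cast_zero, add_zero, List.range'_zero]
  refine ⟨h1, h2, ?_, ?_, rfl, rfl⟩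
  · simp only [List.flatten_nil, sh, List.map_nil, Multiset.coe_nil]
  · simp only [List.flatMap_nil, sh, List.map_nil, Multiset.coe_nil]

theorem good_append {a b c : Pat} {v w : List Bool} (h1 : Good R a v b) (h2 : Good R b w c) :
    Good R a (v ++ w) c := by
  obtain ⟨G, hG, hA⟩ := h1
  obtain ⟨H, hH, hB⟩ := h2
  refine ⟨fun s p => ((H (s + v.length) (G s p).1).1, (G s p).2 ++ (H (s + v.length) (G s p).1).2),
    fun s p e1 e2 => ?_, fun s p p' f h => ?_⟩
  · obtain ⟨a1, a2, a3, a4, a5, a6⟩ := hG s p e1 e2
    obtain ⟨b1, b2, b3, b4, b5, b6⟩ := hH (s + v.length) (G s p).1 a1 a2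
    have el : s + ((v ++ w).length : R) = s + v.length + w.length := by
      rw [List.length_append]; push_cast; ring
    have r1 : sh s (List.range' 16 (v ++ w).length)
        = sh s (List.range' 16 v.length) ++ sh (s + v.length) (List.range' 16 w.length) := by
      rw [List.length_append, ← List.range'_append_1, sh_append, sh_add, List.map_add_range',
        Nat.add_comm]
    have r2 : sh (s + s) (List.range' 32 (v ++ w).length 2)
        = sh (s + s) (List.range' 32 v.length 2)
          ++ sh (s + v.length + (s + v.length)) (List.range' 32 w.length 2) := by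
      rw [List.length_append, ← List.range'_append, sh_append,
        show s + v.length + (s + v.length) = s + s + ((2 * v.length : ℕ) : R) by push_cast; ring,
        sh_add, List.map_add_range', Nat.add_comm]
    have n1 := nom_append (1 : ℤ) (· + 1) v w (p.1.length + 4 - a.ea) (p.2.length + 4 - a.eb)
    simp only [nz] at a5 a6 b5 b6 ⊢
    rw [a5] at n1
    refine ⟨el ▸ b1, el ▸ b2, ?_, ?_, by rw [n1]; exact b5, ?_⟩
    · rw [el, r1]
      simp only [List.flatten_append, ← Multiset.coe_add]
      have := congrArg₂ (· + ·) a3 b3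
      refine add_right_cancel (b := ((G s p).1.1 : Multiset R) + ((G s p).1.2 : Multiset R)
        + (sh (s + v.length) b.ex : Multiset R) + (sh (s + v.length) b.ho : Multiset R)) ?_
      linear_combination (norm := abel) this
    · rw [r2]
      simp only [List.flatMap_append, ← Multiset.coe_add]
      have := congrArg₂ (· + ·) a4 b4
      refine add_right_cancel (b := (ps (G s p).1.1 : Multiset R) + (ps (G s p).1.2 : Multiset R)) ?_
      linear_combination (norm := abel) this
    · rw [n1]
      simp only [List.map_append, ← Multiset.coe_add]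
      rw [a6, b6]
  · have : fl (v ++ w) f = fl w (fl v f) := by simp only [fl, nom_append]
    rw [this]
    exact hB _ _ _ _ (hA s p p' f h)

end sem

end Pool.Agent.P.MP_509d99_co
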