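import Pool.Agent.P.MP_509d99_co.Chain

set_option autoImplicit false

namespace Pool.Agent.P.MP_509d99_co

/-- Interleaving of two words. -/
def il {α : Type} : List α → List α → List α
  | a :: U, b :: V => a :: b :: il U V
  | U, _ => U

theorem il_len {α : Type} (V U : List α) (h : U.length = V.length + 1) :
    (il U V).length = U.length + V.length := by
  induction V generalizing U with
  | nil => obtain ⟨a, rfl⟩ := List.length_eq_one_iff.1 h; rfl
  | cons b V ih =>
    obtain _ | ⟨a, U⟩ := U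
    · simp at h
    · simp only [il, List.length_cons, ih U (by simpa using h)]; omega

/-- The nominal process on one strand. -/
def r1 : List Bool → ℤ → ℤ × List ℤ
  | [], i => (i, [])
  | b :: w, i => bif b then ((r1 w 1).1, i :: (r1 w 1).2) else r1 w (i + 1)

theorem r1_append (v w : List Bool) (i : ℤ) :
    r1 (v ++ w) i = ((r1 w (r1 v i).1).1, (r1 v i).2 ++ (r1 w (r1 v i).1).2) := by
  induction v generalizing i with
  | nil => rfl
  | cons b v ih => cases b <;> simp [r1, ih]

theorem nz_il (V U : List Bool) (h : U.length = V.length + 1) (i j : ℤ) :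
    (nz (il U V) (i, j)).1 = ((r1 V j).1, (r1 U i).1) ∧
      ((nz (il U V) (i, j)).2 : Multiset ℤ) = ((r1 U i).2 : Multiset ℤ) + ((r1 V j).2 : Multiset ℤ) := by
  induction V generalizing U i j with
  | nil =>
    obtain ⟨a, rfl⟩ := List.length_eq_one_iff.1 h
    cases a <;> exact ⟨rfl, rfl⟩
  | cons b V ih =>
    obtain _ | ⟨a, U⟩ := U
    · simp at h
    have h' : U.length = V.length + 1 := by simpa using h
    simp only [nz] at ih
    cases a <;> cases b <;>
      simp only [nz, il, nom, r1, cond_true, cond_false, ← Multiset.cons_coe, (ih U h' _ _).1,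
        (ih U h' _ _).2, Multiset.cons_add, Multiset.add_cons, true_and]
    exact Multiset.cons_swap _ _ _

def blk (n : ℕ) : List Bool := true :: List.replicate (n - 1) false

theorem r1_rep (n : ℕ) (i : ℤ) : r1 (List.replicate n false) i = (i + n, []) := by
  induction n generalizing i with
  | zero => simp [r1]
  | succ n ih => simp only [List.replicate_succ, r1, cond_false, ih]; push_cast; ring_nf

theorem r1_blocks (N : List ℕ) (h : ∀ n ∈ N, 1 ≤ n) (i : ℤ) :
    (r1 (N.flatMap blk) i).1 ::ₘ ((r1 (N.flatMap blk) i).2 : Multiset ℤ)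
      = i ::ₘ ((N.map (fun n : ℕ => (n : ℤ)) : List ℤ) : Multiset ℤ) := by
  induction N generalizing i with
  | nil => rfl
  | cons n N ih =>
    have h1 : 1 ≤ n := h n (by simp)
    have e : r1 (blk n) i = ((n : ℤ), [i]) := by
      simp only [blk, r1, cond_true, r1_rep]; congr 1; omega
    rw [List.flatMap_cons, r1_append, e]
    simp only [List.singleton_append, ← Multiset.cons_coe, List.map_cons]
    rw [Multiset.cons_swap, ih (fun m hm => h m (by simp [hm]))]

theorem blocks_len (N : List ℕ) (h : ∀ n ∈ N, 1 ≤ n) : (N.flatMap blk).length = N.sum := by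
  induction N with
  | nil => rfl
  | cons n N ih =>
    have h1 : 1 ≤ n := h n (by simp)
    rw [List.flatMap_cons, List.length_append, ih (fun m hm => h m (by simp [hm]))]
    simp only [blk, List.length_cons, List.length_replicate, List.sum_cons]; omega

/-- One step of the monitor of block lengths. -/
def st1 (s : ℕ × ℕ) (b : Bool) : ℕ × ℕ := bif b then (s.2, 1) else (s.1, min 5 (s.2 + 1))

def ok1 (s : ℕ × ℕ) (b : Bool) : Prop := bif b then 3 ≤ s.2 else (5 ≤ s.1 ∨ s.2 < s.1)

def oks : ℕ × ℕ → List Bool → Prop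
  | _, [] => True
  | s, b :: w => ok1 s b ∧ oks (st1 s b) w

def Iv (s : ℕ × ℕ) : Prop := 1 ≤ s.2 ∧ s.2 ≤ s.1 ∧ 3 ≤ s.1 ∧ s.1 ≤ 5

theorem iv_step {s : ℕ × ℕ} {b : Bool} (h : Iv s) (k : ok1 s b) : Iv (st1 s b) ∧ (st1 s b).1 ≤ s.1 := by
  cases b <;> simp only [Iv, ok1, st1, cond_true, cond_false] at h k ⊢ <;> omega

theorem iv_run {s : ℕ × ℕ} {w : List Bool} (h : Iv s) (k : oks s w) :
    Iv (w.foldl st1 s) ∧ (w.foldl st1 s).1 ≤ s.1 := by
  induction w generalizing s with
  | nil => exact ⟨h, le_rfl⟩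
  | cons b w ih =>
    have := iv_step h k.1
    exact ⟨(ih this.1 k.2).1, (ih this.1 k.2).2.trans this.2⟩

theorem oks_append (s : ℕ × ℕ) (v w : List Bool) :
    oks s (v ++ w) ↔ oks s v ∧ oks (v.foldl st1 s) w := by
  induction v generalizing s with
  | nil => simp [oks]
  | cons b v ih => simp [oks, ih, and_assoc]

theorem oks_rep (n l t : ℕ) (h : 5 ≤ l ∨ t + n ≤ l) :
    oks (l, min 5 t) (List.replicate n false) ∧
      (List.replicate n false).foldl st1 (l, min 5 t) = (l, min 5 (t + n)) := by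
  induction n generalizing t with
  | zero => exact ⟨trivial, rfl⟩
  | succ n ih =>
    have e : st1 (l, min 5 t) false = (l, min 5 (t + 1)) := by
      simp only [st1, cond_false]; congr 1; omega
    have := ih (t + 1) (by omega)
    simp only [List.replicate_succ, oks, List.foldl_cons, e, this, and_true, ok1, cond_false]
    exact ⟨by omega, by congr 2; omega⟩

theorem oks_blocks (N : List ℕ) (h : ∀ n ∈ N, 3 ≤ n) (hs : N.Pairwise (· ≥ ·)) (s : ℕ × ℕ)
    (h3 : 3 ≤ s.2) (hb : ∀ n ∈ N, min 5 n ≤ s.2) :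
    oks s (N.flatMap blk) ∧ 3 ≤ ((N.flatMap blk).foldl st1 s).2 := by
  induction N generalizing s with
  | nil => exact ⟨trivial, h3⟩
  | cons n N ih =>
    have h1 := h n (by simp)
    have h2 := hb n (by simp)
    have r := oks_rep (n - 1) s.2 1 (by omega)
    have e : (blk n).foldl st1 s = (s.2, min 5 n) := by
      rw [blk, List.foldl_cons]; exact r.2.trans (by congr 2; omega)
    have := ih (fun m hm => h m (by simp [hm])) hs.of_cons (s.2, min 5 n) (by simp only; omega)
      fun m hm => by have := List.rel_of_pairwise_cons hs hm; simp only; omega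
    rw [List.flatMap_cons, oks_append, List.foldl_append, e]
    exact ⟨⟨⟨h3, r.1⟩, this.1⟩, this.2⟩

/-- State of the monitor on two strands. -/
structure M where
  l0 : ℕ
  c0 : ℕ
  a : Bool
  l1 : ℕ
  c1 : ℕ

def nxt (m : M) (b : Bool) : M :=
  ⟨m.l1, m.c1, !m.a, bif b then m.c0 else m.l0, bif b then 1 else min 5 (m.c0 + 1)⟩

def al (lim lo : ℕ) (m : M) (b : Bool) : Bool :=
  (bif b then Nat.ble 3 m.c0 && (!m.a || Nat.ble lim m.c0) else Nat.ble 5 m.l0 || Nat.ble (m.c0 + 1) m.l0)
    && Nat.ble lo (bif m.a then m.l1 else bif b then m.c0 else m.l0)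

theorem al_mono {lim lo lo' : ℕ} {m : M} {b : Bool} (h : al lim lo m b = true) (k : lo' ≤ lo) :
    al lim lo' m b = true := by
  simp only [al, Bool.and_eq_true, Nat.ble_eq] at h ⊢
  exact ⟨h.1, k.trans h.2⟩

def Acc (lim lo : ℕ) (fin : M) : M → List Bool → Prop
  | m, [] => m = fin
  | m, b :: r => al lim lo m b = true ∧ Acc lim lo fin (nxt m b) r

theorem acc_il (lim lo : ℕ) (V U : List Bool) (h : U.length = V.length + 1) (s t : ℕ × ℕ)
    (hs : Iv s) (ht : Iv t) (ks : oks s U) (kt : oks t V) (h1 : lim ≤ (U.foldl st1 s).1)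
    (h2 : lo ≤ (V.foldl st1 t).1) :
    Acc lim lo ⟨(V.foldl st1 t).1, (V.foldl st1 t).2, false, (U.foldl st1 s).1, (U.foldl st1 s).2⟩
      ⟨s.1, s.2, true, t.1, t.2⟩ (il U V) := by
  induction V generalizing U s t with
  | nil =>
    obtain ⟨a, rfl⟩ := List.length_eq_one_iff.1 h
    have := ks.1
    cases a <;> simp_all [il, Acc, al, nxt, st1, ok1]
  | cons b V ih =>
    obtain _ | ⟨a, U⟩ := U
    · simp at h
    have a1 := iv_step hs ks.1
    have b1 := iv_step ht kt.1
    have a2 := (iv_run a1.1 ks.2).2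
    have b2 := (iv_run b1.1 kt.2).2
    have := ih U (by simpa using h) _ _ a1.1 b1.1 ks.2 kt.2 h1 h2
    have a3 := ks.1
    have b3 := kt.1
    simp only [List.foldl_cons] at h1 h2 ⊢
    refine ⟨?_, ?_, ?_⟩
    · cases a <;> simp [al, st1, ok1] at a2 a3 h1 ⊢ <;> omega
    · cases b <;> simp [al, nxt, st1, ok1] at b2 b3 h2 ⊢ <;> omega
    · convert this using 1
      cases a <;> cases b <;> rfl

theorem word (N : List ℕ) (h : ∀ n ∈ N, 3 ≤ n) (hs : N.Pairwise (· ≥ ·)) (ho : N.sum % 2 = 1) :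
    ∃ (w : List Bool) (l c e1 e2 : ℕ) (z : ℤ × ℤ), (true :: w).length = N.sum ∧
      (1 ≤ c ∧ c ≤ l ∧ l ≤ 5 ∧ 3 ≤ e2 ∧ e2 ≤ e1 ∧ e1 ≤ l) ∧
      Acc l e1 ⟨e1, e2, false, l, c⟩ ⟨5, 5, true, l, c⟩ (true :: w) ∧ (nz (true :: w) z).1 = z ∧
      ((nz (true :: w) z).2 : Multiset ℤ) = (N.map (fun n : ℕ => (n : ℤ)) : List ℤ) := by
  have h1 : ∀ n ∈ N, 1 ≤ n := fun n hn => (h n hn).trans' (by norm_num)
  have hl := blocks_len N h1
  have ok := oks_blocks N h hs (5, 5) (by norm_num) fun n _ => min_le_left _ _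
  have rb := r1_blocks N h1
  obtain ⟨B, hB⟩ : ∃ B, N.flatMap blk = true :: B := by
    obtain _ | ⟨n, N⟩ := N
    · simp at ho
    · exact ⟨_, rfl⟩
  rw [hB] at hl ok rb
  have sp : true :: B = (true :: B.take (N.sum / 2)) ++ B.drop (N.sum / 2) := by simp
  set U := true :: B.take (N.sum / 2) with hU
  set V := B.drop (N.sum / 2)
  have hUV : U.length = V.length + 1 := by
    simp only [U, V, List.length_cons, List.length_take, List.length_drop] at hl ⊢; omega
  obtain ⟨w, hw⟩ : ∃ w, il U V = true :: w := by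
    cases V <;> exact ⟨_, rfl⟩
  have fx : ∀ i, (r1 (true :: B) i).1 = (r1 (true :: B) 0).1 := fun i => rfl
  rw [sp] at hl ok rb fx
  rw [oks_append, List.foldl_append] at ok
  have i0 : Iv (5, 5) := by simp [Iv]
  have i1 := iv_run i0 ok.1.1
  have i2 := iv_run i1.1 ok.1.2
  have ac := acc_il _ _ V U hUV _ _ i0 i1.1 ok.1.1 ok.1.2 le_rfl le_rfl
  have nn := nz_il V U hUV (r1 (U ++ V) 0).1 (r1 U (r1 (U ++ V) 0).1).1
  have e1 := fx (r1 (U ++ V) 0).1
  have e2 := rb (r1 (U ++ V) 0).1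
  rw [e1, Multiset.cons_inj_right] at e2
  rw [r1_append] at e1 e2
  refine ⟨w, _, _, _, _, ((r1 (U ++ V) 0).1, (r1 U (r1 (U ++ V) 0).1).1), ?_, ?_, hw ▸ ac, ?_, ?_⟩
  · rw [← hw, il_len V U hUV, ← hl, List.length_append]
  · exact ⟨i1.1.1, i1.1.2.1, i1.1.2.2.2, ok.2, i2.1.2.1, i2.2⟩
  · rw [← hw, nn.1]; exact Prod.ext e1 rfl
  · rw [← hw, nn.2, ← e2, Multiset.coe_add]

end Pool.Agent.P.MP_509d99_co
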